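import Pool.Agent.Run7.h11.Q.Ring

set_option autoImplicit false

/-!
A Lie ring `M` over the field with three elements, with a two-cocycle `β` in a commutative ring
`K` which is an eigenvector of a derivation `δ`: the central extension acts on the
polynomial ring over `K` in a basis of `M`, with `K` acting by multiplication.
-/

namespace Run7.h11.Q

/-- a cocycle with a derivation -/
structure Dat (M K : Type) [LieRing M] [Module F3 M] [CommRing K] [Algebra F3 K] where
  β : M → M → K
  δ : M → M
  add_left : ∀ x y z, β (x + y) z = β x z + β y z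
  add_right : ∀ x y z, β x (y + z) = β x y + β x z
  alt : ∀ x, β x x = 0
  coc : ∀ x y z, β ⁅x, y⁆ z = β x ⁅y, z⁆ - β y ⁅x, z⁆
  dadd : ∀ x y, δ (x + y) = δ x + δ y
  der : ∀ x y, δ ⁅x, y⁆ = ⁅δ x, y⁆ + ⁅x, δ y⁆
  wt : ∀ x y, β (δ x) y + β x (δ y) = β x y

namespace Dat

variable {M K : Type} [LieRing M] [Module F3 M] [CommRing K] [Algebra F3 K] (d : Dat M K)

lemma skew (x y : M) : d.β x y = - d.β y x := by
  have h := d.alt (x + y)
  rw [d.add_left, d.add_right, d.add_right, d.alt, d.alt, zero_add, add_zero] at h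
  exact eq_neg_of_add_eq_zero_left h

/-- the index set of the basis -/
abbrev II (M : Type) [LieRing M] [Module F3 M] := Module.Basis.ofVectorSpaceIndex F3 M

/-- the basis -/
noncomputable abbrev bb (M : Type) [LieRing M] [Module F3 M] : Module.Basis (II M) F3 M :=
  Module.Basis.ofVectorSpace F3 M

/-- the module -/
abbrev VV (M K : Type) [LieRing M] [Module F3 M] [CommRing K] := MvPolynomial (II M) K

/-- the linear forms -/
noncomputable def lin (M K : Type) [LieRing M] [Module F3 M] [CommRing K] [Algebra F3 K] :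
    M →ₗ[F3] VV M K :=
  (bb M).constr F3 (fun i => (MvPolynomial.X i : VV M K))

lemma lin_bb (i : II M) : lin M K (bb M i) = MvPolynomial.X i := by
  rw [lin, Module.Basis.constr_basis]

/-- the derivation attached to an element -/
noncomputable def Dd (u : M) : Derivation K (VV M K) (VV M K) :=
  MvPolynomial.mkDerivation K (fun i => lin M K ⁅u, bb M i⁆ + MvPolynomial.C (d.β u (bb M i)))

lemma Dd_lin (u m : M) : d.Dd u (lin M K m) = lin M K ⁅u, m⁆ + MvPolynomial.C (d.β u m) := by
  let f : M →+ VV M K := AddMonoidHom.mk' (fun m => d.Dd u (lin M K m)) (by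
    intro a b; simp only [map_add])
  let g : M →+ VV M K := AddMonoidHom.mk'
    (fun m => lin M K ⁅u, m⁆ + MvPolynomial.C (d.β u m)) (by
    intro a b; simp only [lie_add, map_add, d.add_right]; abel)
  have h : f.toZModLinearMap 3 = g.toZModLinearMap 3 := by
    apply (bb M).ext
    intro i
    show d.Dd u (lin M K (bb M i)) = lin M K ⁅u, bb M i⁆ + MvPolynomial.C (d.β u (bb M i))
    rw [lin_bb, Dd, MvPolynomial.mkDerivation_X]
  exact LinearMap.congr_fun h m

lemma Dd_C (u : M) (k : K) : d.Dd u (MvPolynomial.C k) = 0 := by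
  rw [MvPolynomial.derivation_C]

lemma Dd_comm (x y : M) (v : VV M K) :
    d.Dd x (d.Dd y v) - d.Dd y (d.Dd x v) = d.Dd ⁅x, y⁆ v := by
  rw [← Derivation.commutator_apply]
  congr 1
  apply MvPolynomial.derivation_ext
  intro i
  rw [Derivation.commutator_apply, ← lin_bb i]
  simp only [Dd_lin, map_add, Dd_C, add_zero]
  rw [d.coc, map_sub, lie_lie, map_sub]
  abel

lemma Dd_add (x y : M) (v : VV M K) : d.Dd (x + y) v = d.Dd x v + d.Dd y v := by
  rw [← Derivation.add_apply]
  congr 1
  apply MvPolynomial.derivation_ext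
  intro i
  rw [Derivation.add_apply, ← lin_bb i]
  simp only [Dd_lin, add_lie, map_add, d.add_left]
  abel

/-- the action -/
noncomputable def rho (x : M) (k : K) (v : VV M K) : VV M K :=
  d.Dd x v + (lin M K (d.δ x) + MvPolynomial.C k) * v

lemma rho_add_right (x : M) (k : K) (v w : VV M K) :
    d.rho x k (v + w) = d.rho x k v + d.rho x k w := by
  simp only [rho, map_add]; ring

lemma rho_sub_right (x : M) (k : K) (v w : VV M K) :
    d.rho x k (v - w) = d.rho x k v - d.rho x k w := by
  simp only [rho, map_sub]; ring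

lemma rho_add_left (x y : M) (k l : K) (v : VV M K) :
    d.rho (x + y) (k + l) v = d.rho x k v + d.rho y l v := by
  simp only [rho, Dd_add, d.dadd, map_add]; ring

lemma rho_comm (x y : M) (k l : K) (v : VV M K) :
    d.rho x k (d.rho y l v) - d.rho y l (d.rho x k v) = d.rho ⁅x, y⁆ (d.β x y) v := by
  have h1 := d.Dd_comm x y v
  simp only [rho, map_add, Derivation.leibniz, smul_eq_mul, Dd_C, Dd_lin, d.der]
  rw [← h1]
  have h2 : lin M K ⁅x, d.δ y⁆ = - lin M K ⁅d.δ y, x⁆ := by rw [← lie_skew, map_neg]
  have h3 : lin M K ⁅y, d.δ x⁆ = - lin M K ⁅d.δ x, y⁆ := by rw [← lie_skew, map_neg]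
  have h4 : MvPolynomial.C (d.β x y) =
      (MvPolynomial.C (d.β x (d.δ y)) - MvPolynomial.C (d.β y (d.δ x)) : VV M K) := by
    rw [← map_sub, ← d.wt x y, d.skew (d.δ x) y]
    congr 1
    ring
  rw [h4, h3]
  ring

end Dat

/-- the semidirect product with the central extension -/
def LL {M K : Type} [LieRing M] [Module F3 M] [CommRing K] [Algebra F3 K] (_d : Dat M K) : Type :=
  Dat.VV M K × M × K

namespace LL

variable {M K : Type} [LieRing M] [Module F3 M] [CommRing K] [Algebra F3 K] (d : Dat M K)

noncomputable instance : AddCommGroup (LL d) :=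
  inferInstanceAs (AddCommGroup (Dat.VV M K × M × K))

/-- constructor -/
def mk (v : Dat.VV M K) (x : M) (k : K) : LL d := (v, x, k)

/-- the component in the module -/
def pv (a : LL d) : Dat.VV M K := a.1
/-- the component in the Lie ring -/
def pm (a : LL d) : M := a.2.1
/-- the component in the centre -/
def pk (a : LL d) : K := a.2.2

@[simp] lemma pv_mk (v : Dat.VV M K) (x : M) (k : K) : pv d (mk d v x k) = v := rfl
@[simp] lemma pm_mk (v : Dat.VV M K) (x : M) (k : K) : pm d (mk d v x k) = x := rfl
@[simp] lemma pk_mk (v : Dat.VV M K) (x : M) (k : K) : pk d (mk d v x k) = k := rfl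
@[simp] lemma pv_add (a b : LL d) : pv d (a + b) = pv d a + pv d b := rfl
@[simp] lemma pm_add (a b : LL d) : pm d (a + b) = pm d a + pm d b := rfl
@[simp] lemma pk_add (a b : LL d) : pk d (a + b) = pk d a + pk d b := rfl
@[simp] lemma pv_zero : pv d 0 = 0 := rfl
@[simp] lemma pm_zero : pm d 0 = 0 := rfl
@[simp] lemma pk_zero : pk d 0 = 0 := rfl

lemma ext' {a b : LL d} (h1 : pv d a = pv d b) (h2 : pm d a = pm d b) (h3 : pk d a = pk d b) :
    a = b := by
  exact Prod.ext h1 (Prod.ext h2 h3)

noncomputable instance : Bracket (LL d) (LL d) :=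
  ⟨fun a b => mk d (d.rho (pm d a) (pk d a) (pv d b) - d.rho (pm d b) (pk d b) (pv d a))
    ⁅pm d a, pm d b⁆ (d.β (pm d a) (pm d b))⟩

@[simp] lemma pv_br (a b : LL d) : pv d ⁅a, b⁆ =
    d.rho (pm d a) (pk d a) (pv d b) - d.rho (pm d b) (pk d b) (pv d a) := rfl
@[simp] lemma pm_br (a b : LL d) : pm d ⁅a, b⁆ = ⁅pm d a, pm d b⁆ := rfl
@[simp] lemma pk_br (a b : LL d) : pk d ⁅a, b⁆ = d.β (pm d a) (pm d b) := rfl

noncomputable instance : LieRing (LL d) where
  add_lie a b c := by
    apply ext' d
    · simp only [pv_br, pv_add, pm_add, pk_add, d.rho_add_left, d.rho_add_right]; abel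
    · simp only [pm_br, pm_add, add_lie]
    · simp only [pk_br, pm_add, pk_add, d.add_left]
  lie_add a b c := by
    apply ext' d
    · simp only [pv_br, pv_add, pm_add, pk_add, d.rho_add_left, d.rho_add_right]; abel
    · simp only [pm_br, pm_add, lie_add]
    · simp only [pk_br, pm_add, pk_add, d.add_right]
  lie_self a := by
    apply ext' d
    · simp only [pv_br, sub_self, pv_zero]
    · simp only [pm_br, lie_self, pm_zero]
    · simp only [pk_br, d.alt, pk_zero]
  leibniz_lie a b c := by
    apply ext' d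
    · simp only [pv_br, pv_add, pm_br, pk_br, d.rho_sub_right]
      rw [← d.rho_comm (pm d b) (pm d c) (pk d b) (pk d c),
        ← d.rho_comm (pm d a) (pm d b) (pk d a) (pk d b),
        ← d.rho_comm (pm d a) (pm d c) (pk d a) (pk d c)]
      abel
    · simp only [pm_br, pm_add]
      exact leibniz_lie _ _ _
    · simp only [pk_br, pm_br, pk_add, d.coc]
      abel

end LL

end Run7.h11.Q
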