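import Pool.Agent.Run7.h11.Q.Ring

set_option autoImplicit false

/-!
The commutative ring of charges, and the push operators.
-/

namespace Run7.h11.Q

/-- the monoid -/
inductive SS (Q : Type) (cls : List Bool → Q) : Type
  | one : SS Q cls
  | e : List Bool → SS Q cls
  | c : Q → SS Q cls
  | zero : SS Q cls

namespace SS

variable {Q : Type} {cls : List Bool → Q}

/-- the product of two words -/
def ee (cls : List Bool → Q) : List Bool → List Bool → SS Q cls
  | true :: m1, false :: m2 => c (cls (m1.reverse ++ m2))
  | false :: m2, true :: m1 => c (cls (m1.reverse ++ m2))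
  | _, _ => zero

lemma ee_comm (l l' : List Bool) : ee cls l l' = ee cls l' l := by
  rcases l with _ | ⟨_ | _, l⟩ <;> rcases l' with _ | ⟨_ | _, l'⟩ <;> rfl

/-- the product -/
def mul : SS Q cls → SS Q cls → SS Q cls
  | one, x => x
  | x, one => x
  | e l, e l' => ee cls l l'
  | _, _ => zero

lemma ee_cases (l l' : List Bool) : (∃ q, ee cls l l' = c q) ∨ ee cls l l' = zero := by
  rcases l with _ | ⟨_ | _, l⟩ <;> rcases l' with _ | ⟨_ | _, l'⟩ <;> simp [ee]

instance : CommMonoid (SS Q cls) where
  mul := mul
  one := one
  one_mul x := by cases x <;> rfl
  mul_one x := by cases x <;> rfl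
  mul_comm x y := by
    show mul x y = mul y x
    cases x <;> cases y <;> simp [mul]
    exact ee_comm _ _
  mul_assoc x y z := by
    show mul (mul x y) z = mul x (mul y z)
    have hc : ∀ (l l' : List Bool) (z : SS Q cls), z ≠ one → mul (ee cls l l') z = zero := by
      intro l l' z hz
      rcases ee_cases (cls := cls) l l' with ⟨_, h⟩ | h <;> rw [h] <;> cases z <;>
        first | rfl | exact absurd rfl hz
    have hc' : ∀ (l l' : List Bool) (z : SS Q cls), z ≠ one → mul z (ee cls l l') = zero := by
      intro l l' z hz
      rcases ee_cases (cls := cls) l l' with ⟨_, h⟩ | h <;> rw [h] <;> cases z <;>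
        first | rfl | exact absurd rfl hz
    have h1 : ∀ z : SS Q cls, mul z one = z := by intro z; cases z <;> rfl
    rcases x with _ | l | q | _
    · rfl
    · rcases y with _ | l' | q' | _
      · rfl
      · rcases z with _ | l'' | q'' | _
        · exact h1 _
        · exact (hc _ _ _ (by simp)).trans (hc' _ _ _ (by simp)).symm
        · exact (hc _ _ _ (by simp)).trans rfl
        · exact (hc _ _ _ (by simp)).trans rfl
      · rcases z with _ | l'' | q'' | _ <;> rfl
      · rcases z with _ | l'' | q'' | _ <;> rfl
    · rcases y with _ | l' | q' | _
      · rfl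
      · rcases z with _ | l'' | q'' | _
        · rfl
        · exact (hc' _ _ _ (by simp)).symm
        · rfl
        · rfl
      · rcases z with _ | l'' | q'' | _ <;> rfl
      · rcases z with _ | l'' | q'' | _ <;> rfl
    · rcases y with _ | l' | q' | _
      · rfl
      · rcases z with _ | l'' | q'' | _
        · rfl
        · exact (hc' _ _ _ (by simp)).symm
        · rfl
        · rfl
      · rcases z with _ | l'' | q'' | _ <;> rfl
      · rcases z with _ | l'' | q'' | _ <;> rfl

lemma e_mul_e (l l' : List Bool) : (e l : SS Q cls) * e l' = ee cls l l' := rfl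

end SS

/-- the ring of charges -/
abbrev KK (Q : Type) (cls : List Bool → Q) := MonoidAlgebra F3 (SS Q cls)

variable {Q : Type} {cls : List Bool → Q}

/-- an additive map out of a monoid algebra -/
noncomputable def linM {Γ A : Type} [AddCommMonoid A] (φ : Γ → F3 →+ A) :
    MonoidAlgebra F3 Γ →+ A :=
  (Finsupp.liftAddHom φ).comp MonoidAlgebra.coeffAddEquiv.toAddMonoidHom

@[simp] lemma linM_single {Γ A : Type} [AddCommMonoid A] (φ : Γ → F3 →+ A) (m : Γ) (r : F3) :
    linM φ (MonoidAlgebra.single m r) = φ m r := by
  simp [linM]

/-- push a letter -/
noncomputable def push (a : Bool) : KK Q cls →+ KK Q cls :=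
  linM (fun s => match s with
    | SS.e l => MonoidAlgebra.singleAddHom (SS.e (a :: l))
    | _ => 0)

@[simp] lemma push_e (a : Bool) (l : List Bool) (r : F3) :
    push a (MonoidAlgebra.single (SS.e l : SS Q cls) r) =
      MonoidAlgebra.single (SS.e (a :: l)) r := by
  simp [push]

@[simp] lemma push_one (a : Bool) (r : F3) :
    push a (MonoidAlgebra.single (SS.one : SS Q cls) r) = 0 := by
  simp [push]

@[simp] lemma push_c (a : Bool) (q : Q) (r : F3) :
    push a (MonoidAlgebra.single (SS.c q : SS Q cls) r) = 0 := by
  simp [push]

@[simp] lemma push_zero (a : Bool) (r : F3) :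
    push a (MonoidAlgebra.single (SS.zero : SS Q cls) r) = 0 := by
  simp [push]

/-- push a word -/
noncomputable def pushW (w : List Bool) (x : KK Q cls) : KK Q cls :=
  w.foldr (fun a y => push a y) x

@[simp] lemma pushW_nil (x : KK Q cls) : pushW [] x = x := rfl
@[simp] lemma pushW_cons (a : Bool) (w : List Bool) (x : KK Q cls) :
    pushW (a :: w) x = push a (pushW w x) := rfl

lemma pushW_add (w : List Bool) (x y : KK Q cls) :
    pushW w (x + y) = pushW w x + pushW w y := by
  induction w with
  | nil => rfl
  | cons a w ih => rw [pushW_cons, ih, map_add]; rfl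

lemma pushW_zero (w : List Bool) : pushW w (0 : KK Q cls) = 0 := by
  induction w with
  | nil => rfl
  | cons a w ih => rw [pushW_cons, ih, map_zero]

lemma pushW_e (w l : List Bool) (r : F3) :
    pushW w (MonoidAlgebra.single (SS.e l : SS Q cls) r) =
      MonoidAlgebra.single (SS.e (w ++ l)) r := by
  induction w with
  | nil => rfl
  | cons a w ih => rw [pushW_cons, ih, push_e]; rfl

lemma push_pushW_other (a : Bool) (w : List Bool) (s : SS Q cls) (hs : ∀ l, s ≠ SS.e l) (r : F3) :
    push a (pushW w (MonoidAlgebra.single s r)) = 0 := by
  have h0 : push a (MonoidAlgebra.single s r) = 0 := by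
    cases s with
    | one => simp
    | e l => exact absurd rfl (hs l)
    | c q => simp
    | zero => simp
  cases w with
  | nil => exact h0
  | cons b w =>
    have : pushW (b :: w) (MonoidAlgebra.single s r) = 0 := by
      induction w generalizing b with
      | nil =>
        show push b (MonoidAlgebra.single s r) = 0
        cases s with
        | one => simp
        | e l => exact absurd rfl (hs l)
        | c q => simp
        | zero => simp
      | cons b' w ih => rw [pushW_cons, ih, map_zero]
    rw [this, map_zero]

lemma push_move (a : Bool) (x y : KK Q cls) :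
    push true (push a x) * push false y = push true x * push false (push a y) := by
  induction x using MonoidAlgebra.induction_linear with
  | zero => simp
  | add x x' hx hx' => simp only [map_add, add_mul, hx, hx']
  | single s r =>
    induction y using MonoidAlgebra.induction_linear with
    | zero => simp
    | add y y' hy hy' => simp only [map_add, mul_add, hy, hy']
    | single s' r' =>
      cases s with
      | one => simp
      | c q => simp
      | zero => simp
      | e l =>
        cases s' with
        | one => simp
        | c q => simp
        | zero => simp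
        | e l' =>
          simp [MonoidAlgebra.single_mul_single, SS.e_mul_e, SS.ee]

lemma push_rule (l r : List Bool) (h : ∀ u v : List Bool, cls (u ++ l ++ v) = cls (u ++ r ++ v))
    (x y : KK Q cls) :
    push true x * push false (pushW l y) = push true x * push false (pushW r y) := by
  induction x using MonoidAlgebra.induction_linear with
  | zero => simp
  | add x x' hx hx' => simp only [map_add, add_mul, hx, hx']
  | single s c =>
    induction y using MonoidAlgebra.induction_linear with
    | zero => simp [pushW_zero]
    | add y y' hy hy' => simp only [map_add, pushW_add, mul_add, hy, hy']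
    | single s' c' =>
      cases s with
      | one => simp
      | c q => simp
      | zero => simp
      | e l1 =>
        cases s' with
        | one => rw [push_pushW_other, push_pushW_other] <;> simp
        | c q => rw [push_pushW_other, push_pushW_other] <;> simp
        | zero => rw [push_pushW_other, push_pushW_other] <;> simp
        | e l' =>
          rw [pushW_e, pushW_e, push_e, push_e, push_e, MonoidAlgebra.single_mul_single,
            MonoidAlgebra.single_mul_single, SS.e_mul_e, SS.e_mul_e]
          simp only [SS.ee]
          rw [← List.append_assoc, ← List.append_assoc, h]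

lemma push_final (w : List Bool) :
    push true (MonoidAlgebra.single (SS.e [] : SS Q cls) 1) *
      push false (pushW w (MonoidAlgebra.single (SS.e []) 1)) =
      MonoidAlgebra.single (SS.c (cls w)) 1 := by
  rw [pushW_e, push_e, push_e, MonoidAlgebra.single_mul_single, SS.e_mul_e]
  simp [SS.ee]

/-- the space on which the operators act -/
abbrev ZZ (Q : Type) (cls : List Bool → Q) := KK Q cls × KK Q cls × KK Q cls × KK Q cls

/-- the first operator -/
noncomputable def opa : ZZ Q cls →+ ZZ Q cls where
  toFun z := (push true z.2.1 + push false z.2.2.2, push true z.2.2.1, 0, z.2.2.1)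
  map_zero' := by simp
  map_add' x y := by
    simp only [Prod.fst_add, Prod.snd_add, map_add, Prod.mk_add_mk, add_zero, Prod.mk.injEq,
      and_true]
    abel

/-- the second operator -/
noncomputable def opb : ZZ Q cls →+ ZZ Q cls where
  toFun z := (0, z.1, z.2.1, 0)
  map_zero' := by simp
  map_add' x y := by simp

/-- the commutator -/
noncomputable def opA (z : ZZ Q cls) : ZZ Q cls := opa (opb z) - opb (opa z)

/-- the second commutator -/
noncomputable def opB (z : ZZ Q cls) : ZZ Q cls := opa (opA (opb z)) - opb (opA (opa z))

lemma opA_fst (z : ZZ Q cls) : (opA z).1 = push true z.1 := by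
  simp [opA, opa, opb]

lemma opB_fst (z : ZZ Q cls) : (opB z).1 = push false z.1 := by
  simp [opB, opA, opa, opb]

end Run7.h11.Q
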