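import Pool.Agent.Run7.h11.Q.Eval
import Pool.Agent.Run7.h11.Q.Kring

set_option autoImplicit false

/-!
The charges of the central words.
-/

namespace Run7.h11.Q

section Abs

variable {Z : Type} [AddCommGroup Z] [Module F3 Z]

lemma hsmul (a : Z →+ Z) (r : F3) (z : Z) : a (r • z) = r • a z :=
  (a.toZModLinearMap 3).map_smul r z

/-- the determinant -/
def det2 (c c' : F3 × F3) : F3 := c.1 * c'.2 - c.2 * c'.1

lemma act_comm (a b A : Z →+ Z) (c c' : F3 × F3) (z : Z) :
    act a b c (A (act a b c' z)) - act a b c' (A (act a b c z)) =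
      det2 c c' • (a (A (b z)) - b (A (a z))) := by
  simp only [act, map_add, hsmul, det2]
  module

end Abs

/-- the basic operation on values -/
noncomputable def XR (h : RR) (c : F3 × F3) (F : RR) : RR :=
  F * (F * (h * (h * (th c * eE F))))

/-- first letter on values -/
noncomputable def alR (h : RR) (c c' : F3 × F3) (F : RR) : RR :=
  XR h c (XR h c' F) - XR h c' (XR h c F)

/-- second letter on values -/
noncomputable def beR (h : RR) (c c' : F3 × F3) (F : RR) : RR :=
  XR h c (alR h c c' (XR h c' F)) - XR h c' (alR h c c' (XR h c F))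

namespace MM

lemma sval_al (H : List (Hn MM)) (x1 x2 : MM) (f : List (Gn MM)) :
    sval (al H x1 x2 f) = alR (Hval H) (- c x1) (- c x2) (sval f) := by
  rw [al, sval_append, sval_neg, sval_XX, sval_XX, sval_XX, sval_XX, alR, sub_eq_add_neg]
  rfl

lemma sval_be (H : List (Hn MM)) (x1 x2 : MM) (f : List (Gn MM)) :
    sval (be H x1 x2 f) = beR (Hval H) (- c x1) (- c x2) (sval f) := by
  rw [be, sval_append, sval_neg, sval_XX, sval_XX, sval_al, sval_al, sval_XX, sval_XX, beR,
    sub_eq_add_neg]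
  rfl

end MM

section K

variable (Q : Type) (cls : List Bool → Q)

/-- the functional with values in the space of the operators -/
noncomputable def PsiZ : RR →+ ZZ Q cls :=
  Psi opa opb (MonoidAlgebra.single (SS.e []) 1, 0, 0, 0) (1, 0, 0, 0)

/-- the functional -/
noncomputable def psK : RR →+ KK Q cls := (AddMonoidHom.fst _ _).comp (PsiZ Q cls)

lemma psK_apply (r : RR) : psK Q cls r = (PsiZ Q cls r).1 := rfl

lemma psK_E (r : RR) : psK Q cls (eE r) = psK Q cls r := by
  rw [psK_apply, psK_apply, PsiZ, Psi_eE]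

lemma psK_D (r : RR) : psK Q cls (eD r) = 0 := by
  rw [psK_apply, PsiZ, Psi_eD]; rfl

/-- the bundled first commutator -/
noncomputable def opA' : ZZ Q cls →+ ZZ Q cls where
  toFun := opA
  map_zero' := by simp [opA]
  map_add' x y := by simp only [opA, map_add]; abel

variable {Q cls}

lemma PsiZ_XR (h : RR) (hh : eE h = 0) (c : F3 × F3) (F : RR) :
    PsiZ Q cls (XR h c F * eD h) = act opa opb c (PsiZ Q cls (F * eD h)) :=
  Psi_main _ _ _ _ c F h hh

lemma PsiZ_alR (h : RR) (hh : eE h = 0) (c c' : F3 × F3) (F : RR) :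
    PsiZ Q cls (alR h c c' F * eD h) = det2 c c' • opA (PsiZ Q cls (F * eD h)) := by
  rw [alR, sub_mul, map_sub, PsiZ_XR h hh, PsiZ_XR h hh, PsiZ_XR h hh, PsiZ_XR h hh]
  exact act_comm opa opb (AddMonoidHom.id _) c c' _

lemma PsiZ_beR (h : RR) (hh : eE h = 0) (c c' : F3 × F3) (F : RR) :
    PsiZ Q cls (beR h c c' F * eD h) =
      (det2 c c' * det2 c c') • opB (PsiZ Q cls (F * eD h)) := by
  rw [beR, sub_mul, map_sub, PsiZ_XR h hh, PsiZ_XR h hh, PsiZ_alR h hh, PsiZ_alR h hh,
    PsiZ_XR h hh, PsiZ_XR h hh]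
  have h1 : ∀ z : ZZ Q cls, act opa opb c (det2 c c' • z) = det2 c c' • act opa opb c z := by
    intro z; simp only [act, hsmul]; module
  have h2 : ∀ z : ZZ Q cls, act opa opb c' (det2 c c' • z) = det2 c c' • act opa opb c' z := by
    intro z; simp only [act, hsmul]; module
  rw [h1, h2, ← smul_sub, mul_smul]
  congr 1
  exact act_comm opa opb (opA' Q cls) c c' _

variable (Q cls)

/-- the cocycle data -/
noncomputable def dK : Dat MM (KK Q cls) := MM.dat (psK Q cls) (psK_E Q cls) (psK_D Q cls)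

/-- the model -/
abbrev LK : Type := LL (dK Q cls)

/-- the projection to `MM` -/
noncomputable abbrev pmK : LK Q cls → MM := LL.pm (dK Q cls)

/-- the charge -/
noncomputable abbrev pkK : LK Q cls → KK Q cls := LL.pk (dK Q cls)

variable {Q cls}

lemma pmK_hom : SHom (pmK Q cls) := ⟨fun _ _ => rfl, fun _ _ => rfl, rfl⟩

lemma pk_T1 (f : List (Gn (LK Q cls))) (e : Hn (LK Q cls)) :
    pkK Q cls (T1 f e) =
      - psK Q cls (MM.sval (f.map (mG (pmK Q cls))) * eD (MM.hval (mH (pmK Q cls) e))) := by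
  have e0 : pkK Q cls (T1 f e) =
      - psK Q cls (MM.om (pmK Q cls (sumP (actP f e.1 e.2.1)))
        (pmK Q cls (Sig.br (ev e.2.2.1) (ev e.2.2.2)))) +
      - psK Q cls (MM.om (pmK Q cls (sumP (actP f e.2.2.1 e.2.2.2)))
        (pmK Q cls (Sig.br (ev e.1) (ev e.2.1)))) := rfl
  rw [e0, sumP_map pmK_hom, sumP_map pmK_hom, actP_map pmK_hom, actP_map pmK_hom,
    MM.sumP_actP, MM.sumP_actP, pmK_hom.br, pmK_hom.br, ev_map pmK_hom, ev_map pmK_hom,
    ev_map pmK_hom, ev_map pmK_hom, ← neg_add, ← map_add]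
  congr 2
  have e1 : MM.hval (mH (pmK Q cls) e) =
      MM.dot ⁅ev (mA (pmK Q cls) e.1), ev (mA (pmK Q cls) e.2.1)⁆
        ⁅ev (mA (pmK Q cls) e.2.2.1), ev (mA (pmK Q cls) e.2.2.2)⁆ := rfl
  rw [e1]
  simp only [sig_br]
  generalize (⁅ev (mA (pmK Q cls) e.1), ev (mA (pmK Q cls) e.2.1)⁆ : MM) = A
  generalize (⁅ev (mA (pmK Q cls) e.2.2.1), ev (mA (pmK Q cls) e.2.2.2)⁆ : MM) = B
  simp only [MM.om, MM.dot, MM.x_sm, MM.y_sm, MM.z_sm, map_add, eu_mul]
  ring

lemma pk_TT (H : List (Hn (LK Q cls))) (f : List (Gn (LK Q cls))) :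
    pkK Q cls (TT H f) =
      - psK Q cls (MM.sval (f.map (mG (pmK Q cls))) *
        eD (MM.Hval (H.map (mH (pmK Q cls))))) := by
  induction H with
  | nil =>
    rw [List.map_nil, MM.Hval_nil, map_zero, mul_zero, map_zero, neg_zero]; rfl
  | cons e H ih =>
    have : pkK Q cls (TT (e :: H) f) = pkK Q cls (T1 f e) + pkK Q cls (TT H f) := rfl
    rw [this, ih, pk_T1, List.map_cons, MM.Hval_cons, map_add, mul_add, map_add]
    abel

lemma pm_TT (H : List (Hn (LK Q cls))) (f : List (Gn (LK Q cls))) :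
    pmK Q cls (TT H f) = 0 := by
  rw [TT_map pmK_hom, MM.TT_eq_zero]

/-- the charge of the central word of a formal scalar -/
noncomputable def kap (z : LK Q cls) (e : Hn (LK Q cls)) (f : List (Gn (LK Q cls))) : KK Q cls :=
  pkK Q cls (TT (HH z e) f)

/-- the determinant of two elements -/
noncomputable def dt (x1 x2 : LK Q cls) : F3 :=
  det2 (- MM.c (pmK Q cls x1)) (- MM.c (pmK Q cls x2))

lemma kap_eq (z : LK Q cls) (e : Hn (LK Q cls)) (f : List (Gn (LK Q cls))) :
    kap z e f = - (PsiZ Q cls (MM.sval (f.map (mG (pmK Q cls))) *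
        eD (MM.Hval (HH (pmK Q cls z) (mH (pmK Q cls) e))))).1 := by
  rw [kap, pk_TT, HH_map pmK_hom, psK_apply]

lemma kap_al (z x1 x2 : LK Q cls) (e : Hn (LK Q cls)) (f : List (Gn (LK Q cls))) :
    kap z e (al (HH z e) x1 x2 f) = dt x1 x2 • push true (kap z e f) := by
  rw [kap_eq, kap_eq, al_map pmK_hom, MM.sval_al, HH_map pmK_hom,
    PsiZ_alR _ (MM.eE_HH _ _), Prod.smul_fst, opA_fst, map_neg, smul_neg]
  rfl

lemma kap_be (z x1 x2 : LK Q cls) (e : Hn (LK Q cls)) (f : List (Gn (LK Q cls))) :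
    kap z e (be (HH z e) x1 x2 f) = (dt x1 x2 * dt x1 x2) • push false (kap z e f) := by
  rw [kap_eq, kap_eq, be_map pmK_hom, MM.sval_be, HH_map pmK_hom,
    PsiZ_beR _ (MM.eE_HH _ _), Prod.smul_fst, opB_fst, map_neg, smul_neg]
  rfl

/-- the weight of a letter -/
def wt1 (a : Bool) : ℕ := bif a then 1 else 2

/-- the weight of a word -/
def wtW (w : List Bool) : ℕ := (w.map wt1).sum

lemma kap_lt (z x1 x2 : LK Q cls) (e : Hn (LK Q cls)) (a : Bool) (f : List (Gn (LK Q cls))) :
    kap z e (lt (HH z e) x1 x2 a f) = (dt x1 x2) ^ wt1 a • push a (kap z e f) := by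
  cases a
  · rw [wt1, cond_false, pow_two]; exact kap_be _ _ _ _ _
  · rw [wt1, cond_true, pow_one]; exact kap_al _ _ _ _ _

lemma kap_wd (z x1 x2 : LK Q cls) (e : Hn (LK Q cls)) (w : List Bool)
    (f : List (Gn (LK Q cls))) :
    kap z e (wd (HH z e) x1 x2 w f) = (dt x1 x2) ^ wtW w • pushW w (kap z e f) := by
  induction w with
  | nil => simp [wd, wtW]
  | cons a w ih =>
    have h1 : wd (HH z e) x1 x2 (a :: w) f = lt (HH z e) x1 x2 a (wd (HH z e) x1 x2 w f) := rfl
    have h2 : wtW (a :: w) = wt1 a + wtW w := by simp [wtW]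
    have h3 : ∀ (r : F3) (k : KK Q cls), push a (r • k) = r • push a k := by
      intro r k; exact hsmul _ _ _
    rw [h1, kap_lt, ih, h2, h3, smul_smul, pow_add, pushW_cons]

end K

end Run7.h11.Q
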