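import Mathlib

set_option autoImplicit false

/-!
The formal scalars (lists of triples of formal brackets) and the operations on them.
-/

namespace Run7.h11.Q

/-- a bracket, an addition and a zero -/
class Sig (X : Type) where
  br : X → X → X
  ad : X → X → X
  ze : X

/-- formal brackets -/
abbrev At (X : Type) := X × X
/-- generators of the formal scalars -/
abbrev Gn (X : Type) := At X × At X × At X
/-- generators of the second kind of formal scalars -/
abbrev Hn (X : Type) := At X × At X × At X × At X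

section Ops

variable {X : Type} [Sig X]

/-- evaluate a formal bracket -/
def ev (p : At X) : X := Sig.br p.1 p.2

/-- the multiple of `v ⊗ y` by the scalar `b · c` -/
def mop (b c v y : At X) : List (At X × At X) :=
  [(b, (ev c, Sig.br (ev v) (ev y))), (v, (ev c, Sig.br (ev b) (ev y))),
   (c, (ev b, Sig.br (ev v) (ev y))), (v, (ev b, Sig.br (ev c) (ev y))),
   ((ev v, Sig.br (ev c) (ev y)), b), ((ev v, Sig.br (ev b) (ev y)), c)]

/-- the multiple of a generator by `b · c` -/
def mulG (b c : At X) (g : Gn X) : List (Gn X) :=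
  (mop b c g.1 g.2.1).map (fun p => (p.1, p.2, g.2.2))

/-- product of formal scalars -/
def mul (s s' : List (Gn X)) : List (Gn X) :=
  s.flatMap fun g => s'.flatMap fun g' => mulG (ev g.1, ev g.2.1) g.2.2 g'

/-- product of formal scalars of both kinds -/
def hmul (H : List (Hn X)) (s' : List (Gn X)) : List (Gn X) :=
  H.flatMap fun e => s'.flatMap fun g' =>
    mulG (ev e.1, ev e.2.1) (ev e.2.2.1, ev e.2.2.2) g'

/-- derivative of a formal bracket -/
def dA (x : X) (p : At X) : At X := (ev p, x)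

/-- derivative of a generator -/
def dG (x : X) (g : Gn X) : List (Gn X) :=
  [(dA x g.1, g.2.1, g.2.2), (g.1, dA x g.2.1, g.2.2), (g.1, g.2.1, dA x g.2.2)]

/-- derivative of a formal scalar -/
def dS (x : X) (s : List (Gn X)) : List (Gn X) := s.flatMap (dG x)

/-- derivative of a generator of the second kind -/
def dH (x : X) (e : Hn X) : List (Hn X) :=
  [(dA x e.1, e.2.1, e.2.2.1, e.2.2.2), (e.1, dA x e.2.1, e.2.2.1, e.2.2.2),
   (e.1, e.2.1, dA x e.2.2.1, e.2.2.2), (e.1, e.2.1, e.2.2.1, dA x e.2.2.2)]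

/-- second derivative -/
def HH (z : X) (e : Hn X) : List (Hn X) := (dH z e).flatMap (dH z)

/-- the basic operation -/
def XX (H : List (Hn X)) (x : X) (f : List (Gn X)) : List (Gn X) :=
  mul f (mul f (hmul H (hmul H (dS x f))))

omit [Sig X] in
/-- the negative -/
def neg (f : List (Gn X)) : List (Gn X) := f.map (fun g => (g.2.1, g.1, g.2.2))

/-- first letter -/
def al (H : List (Hn X)) (x1 x2 : X) (f : List (Gn X)) : List (Gn X) :=
  XX H x1 (XX H x2 f) ++ neg (XX H x2 (XX H x1 f))

/-- second letter -/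
def be (H : List (Hn X)) (x1 x2 : X) (f : List (Gn X)) : List (Gn X) :=
  XX H x1 (al H x1 x2 (XX H x2 f)) ++ neg (XX H x2 (al H x1 x2 (XX H x1 f)))

/-- a letter -/
def lt (H : List (Hn X)) (x1 x2 : X) (a : Bool) (f : List (Gn X)) : List (Gn X) :=
  bif a then al H x1 x2 f else be H x1 x2 f

/-- a word -/
def wd (H : List (Hn X)) (x1 x2 : X) (w : List Bool) (f : List (Gn X)) : List (Gn X) :=
  w.foldr (fun a f => lt H x1 x2 a f) f

/-- the multiple of a tensor by a formal scalar -/
def actP (f : List (Gn X)) (v y : At X) : List (At X × At X) :=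
  f.flatMap fun g => mop (ev g.1, ev g.2.1) g.2.2 v y

/-- the value of a sum of tensors -/
def sumP (P : List (At X × At X)) : X :=
  P.foldr (fun p acc => Sig.ad (Sig.br (ev p.1) (ev p.2)) acc) Sig.ze

/-- one term of the central word -/
def T1 (f : List (Gn X)) (e : Hn X) : X :=
  Sig.ad (Sig.br (sumP (actP f e.1 e.2.1)) (Sig.br (ev e.2.2.1) (ev e.2.2.2)))
    (Sig.br (sumP (actP f e.2.2.1 e.2.2.2)) (Sig.br (ev e.1) (ev e.2.1)))

/-- the central word -/
def TT (H : List (Hn X)) (f : List (Gn X)) : X :=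
  H.foldr (fun e acc => Sig.ad (T1 f e) acc) Sig.ze

/-- the sides of the identities -/
def Idv (y x1 x2 z : X) (e : Hn X) (f0 : List (Gn X)) (w1 w2 : List Bool)
    (f1 f2 : List (Gn X)) : X :=
  Sig.br (Sig.br (Sig.br y (TT (HH z e) f0))
    (TT (HH z e) (al (HH z e) x1 x2 (wd (HH z e) x1 x2 w1 f1))))
    (TT (HH z e) (be (HH z e) x1 x2 (wd (HH z e) x1 x2 w2 f2)))

end Ops

section Nat

variable {X Y : Type} [Sig X] [Sig Y]

/-- homomorphisms -/
structure SHom (φ : X → Y) : Prop where
  br : ∀ a b, φ (Sig.br a b) = Sig.br (φ a) (φ b)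
  ad : ∀ a b, φ (Sig.ad a b) = Sig.ad (φ a) (φ b)
  ze : φ Sig.ze = Sig.ze

omit [Sig X] [Sig Y] in
/-- on formal brackets -/
def mA (φ : X → Y) (p : At X) : At Y := (φ p.1, φ p.2)
omit [Sig X] [Sig Y] in
/-- on generators -/
def mG (φ : X → Y) (p : Gn X) : Gn Y := (mA φ p.1, mA φ p.2.1, mA φ p.2.2)
omit [Sig X] [Sig Y] in
/-- on generators of the second kind -/
def mH (φ : X → Y) (p : Hn X) : Hn Y := (mA φ p.1, mA φ p.2.1, mA φ p.2.2.1, mA φ p.2.2.2)
omit [Sig X] [Sig Y] in
/-- on pairs -/
def mP (φ : X → Y) (p : At X × At X) : At Y × At Y := (mA φ p.1, mA φ p.2)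

variable {φ : X → Y} (h : SHom φ)

include h

lemma ev_map (p : At X) : φ (ev p) = ev (mA φ p) := h.br _ _

lemma mop_map (b c v y : At X) :
    (mop b c v y).map (mP φ) = mop (mA φ b) (mA φ c) (mA φ v) (mA φ y) := by
  simp only [mop, List.map_cons, List.map_nil, mP, mA, ev_map h, h.br]

lemma mA_ev (p q : At X) : mA φ (ev p, ev q) = (ev (mA φ p), ev (mA φ q)) := by
  rw [mA, ev_map h, ev_map h]

lemma mulG_map (b c : At X) (g : Gn X) :
    (mulG b c g).map (mG φ) = mulG (mA φ b) (mA φ c) (mG φ g) := by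
  simp only [mulG, mG, ← mop_map h, List.map_map]
  rfl

lemma mul_map (s s' : List (Gn X)) :
    (mul s s').map (mG φ) = mul (s.map (mG φ)) (s'.map (mG φ)) := by
  simp only [mul, List.map_flatMap, List.flatMap_map, mulG_map h, mA_ev h]
  rfl

lemma hmul_map (H : List (Hn X)) (s' : List (Gn X)) :
    (hmul H s').map (mG φ) = hmul (H.map (mH φ)) (s'.map (mG φ)) := by
  simp only [hmul, List.map_flatMap, List.flatMap_map, mulG_map h, mA_ev h]
  rfl

lemma dA_map (x : X) (p : At X) : mA φ (dA x p) = dA (φ x) (mA φ p) := by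
  simp only [dA, mA, ev_map h]

lemma dG_map (x : X) (g : Gn X) : (dG x g).map (mG φ) = dG (φ x) (mG φ g) := by
  simp only [dG, mG, List.map_cons, List.map_nil, dA_map h]

lemma dS_map (x : X) (s : List (Gn X)) : (dS x s).map (mG φ) = dS (φ x) (s.map (mG φ)) := by
  simp only [dS, List.map_flatMap, List.flatMap_map, dG_map h]

lemma dH_map (x : X) (g : Hn X) : (dH x g).map (mH φ) = dH (φ x) (mH φ g) := by
  simp only [dH, mH, List.map_cons, List.map_nil, dA_map h]

lemma HH_map (z : X) (e : Hn X) : (HH z e).map (mH φ) = HH (φ z) (mH φ e) := by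
  rw [HH, HH, List.map_flatMap, ← dH_map h z e, List.flatMap_map]
  exact congrArg (fun k => List.flatMap k (dH z e)) (funext fun a => dH_map h z a)

lemma XX_map (H : List (Hn X)) (x : X) (f : List (Gn X)) :
    (XX H x f).map (mG φ) = XX (H.map (mH φ)) (φ x) (f.map (mG φ)) := by
  simp only [XX, mul_map h, hmul_map h, dS_map h]

omit h [Sig X] [Sig Y] in
lemma neg_map (f : List (Gn X)) : (neg f).map (mG φ) = neg (f.map (mG φ)) := by
  simp only [neg, List.map_map]
  rfl

lemma al_map (H : List (Hn X)) (x1 x2 : X) (f : List (Gn X)) :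
    (al H x1 x2 f).map (mG φ) = al (H.map (mH φ)) (φ x1) (φ x2) (f.map (mG φ)) := by
  simp only [al, List.map_append, neg_map, XX_map h]

lemma be_map (H : List (Hn X)) (x1 x2 : X) (f : List (Gn X)) :
    (be H x1 x2 f).map (mG φ) = be (H.map (mH φ)) (φ x1) (φ x2) (f.map (mG φ)) := by
  simp only [be, List.map_append, neg_map, XX_map h, al_map h]

lemma lt_map (H : List (Hn X)) (x1 x2 : X) (a : Bool) (f : List (Gn X)) :
    (lt H x1 x2 a f).map (mG φ) = lt (H.map (mH φ)) (φ x1) (φ x2) a (f.map (mG φ)) := by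
  cases a
  · exact be_map h _ _ _ _
  · exact al_map h _ _ _ _

lemma wd_map (H : List (Hn X)) (x1 x2 : X) (w : List Bool) (f : List (Gn X)) :
    (wd H x1 x2 w f).map (mG φ) = wd (H.map (mH φ)) (φ x1) (φ x2) w (f.map (mG φ)) := by
  induction w with
  | nil => rfl
  | cons a w ih =>
    simp only [wd, List.foldr_cons] at ih ⊢
    rw [lt_map h, ih]

lemma actP_map (f : List (Gn X)) (v y : At X) :
    (actP f v y).map (mP φ) = actP (f.map (mG φ)) (mA φ v) (mA φ y) := by
  simp only [actP, List.map_flatMap, List.flatMap_map, mop_map h, mA_ev h]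
  rfl

lemma sumP_map (P : List (At X × At X)) : φ (sumP P) = sumP (P.map (mP φ)) := by
  induction P with
  | nil => exact h.ze
  | cons p P ih =>
    simp only [sumP, List.foldr_cons, List.map_cons] at ih ⊢
    rw [h.ad, ih, h.br, ev_map h, ev_map h]
    rfl

lemma T1_map (f : List (Gn X)) (e : Hn X) : φ (T1 f e) = T1 (f.map (mG φ)) (mH φ e) := by
  simp only [T1, h.ad, h.br, ev_map h, sumP_map h, actP_map h]
  rfl

lemma TT_map (H : List (Hn X)) (f : List (Gn X)) :
    φ (TT H f) = TT (H.map (mH φ)) (f.map (mG φ)) := by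
  induction H with
  | nil => exact h.ze
  | cons e H ih =>
    simp only [TT, List.foldr_cons, List.map_cons] at ih ⊢
    rw [h.ad, ih, T1_map h]

lemma Idv_map (y x1 x2 z : X) (e : Hn X) (f0 : List (Gn X)) (w1 w2 : List Bool)
    (f1 f2 : List (Gn X)) :
    φ (Idv y x1 x2 z e f0 w1 w2 f1 f2) =
      Idv (φ y) (φ x1) (φ x2) (φ z) (mH φ e) (f0.map (mG φ)) w1 w2 (f1.map (mG φ))
        (f2.map (mG φ)) := by
  simp only [Idv, h.br, TT_map h, al_map h, be_map h, wd_map h, HH_map h]

end Nat

end Run7.h11.Q
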