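import Pool.Agent.Run7.h11.Q.MM
import Pool.Agent.Run7.h11.Q.Form

set_option autoImplicit false

/-!
The values of the formal operations in the Lie ring `MM`.
-/

namespace Run7.h11.Q

instance sigLie {L : Type} [LieRing L] : Sig L := ⟨fun a b => ⁅a, b⁆, fun a b => a + b, 0⟩

lemma sig_br {L : Type} [LieRing L] (a b : L) : (Sig.br a b : L) = ⁅a, b⁆ := rfl
lemma sig_ad {L : Type} [LieRing L] (a b : L) : (Sig.ad a b : L) = a + b := rfl
lemma sig_ze {L : Type} [LieRing L] : (Sig.ze : L) = 0 := rfl

lemma ev_eq {L : Type} [LieRing L] (p : At L) : ev p = ⁅p.1, p.2⁆ := rfl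

namespace MM

lemma c_ev (p : At MM) : c (ev p) = 0 := by rw [ev_eq, c_br]

/-- multiply the vector part -/
noncomputable def sm (r : RR) (a : MM) : MM := mk 0 (r * x a) (r * y a) (r * z a)

@[simp] lemma c_sm (r : RR) (a : MM) : c (sm r a) = 0 := rfl
@[simp] lemma x_sm (r : RR) (a : MM) : x (sm r a) = r * x a := rfl
@[simp] lemma y_sm (r : RR) (a : MM) : y (sm r a) = r * y a := rfl
@[simp] lemma z_sm (r : RR) (a : MM) : z (sm r a) = r * z a := rfl

lemma sm_add (r s : RR) (a : MM) : sm (r + s) a = sm r a + sm s a := by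
  apply ext'
  · simp
  · simp; ring
  · simp; ring
  · simp; ring

lemma sm_zero (a : MM) : sm 0 a = 0 := by
  apply ext' <;> simp

lemma six (B C V Y : MM) (hB : c B = 0) (hC : c C = 0) (hV : c V = 0) (hY : c Y = 0) :
    ⁅B, ⁅C, ⁅V, Y⁆⁆⁆ + (⁅V, ⁅C, ⁅B, Y⁆⁆⁆ + (⁅C, ⁅B, ⁅V, Y⁆⁆⁆ + (⁅V, ⁅B, ⁅C, Y⁆⁆⁆
      + (⁅⁅V, ⁅C, Y⁆⁆, B⁆ + (⁅⁅V, ⁅B, Y⁆⁆, C⁆ + 0))))) = sm (dot B C) ⁅V, Y⁆ := by
  have h3 : (3 : RR) = 0 := three_eq
  apply ext'
  · simp only [c_add, c_br, c_sm, add_zero]
  · simp only [x_add, x_br, y_br, z_br, c_br, hB, hC, hV, hY, dd_zero_left, x_sm, x_zero, dot]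
    linear_combination (-(x B * x C + y B * y C + z B * z C) * (y V * z Y - z V * y Y)) * h3
  · simp only [y_add, x_br, y_br, z_br, c_br, hB, hC, hV, hY, dd_zero_left, y_sm, y_zero, dot]
    linear_combination (-(x B * x C + y B * y C + z B * z C) * (z V * x Y - x V * z Y)) * h3
  · simp only [z_add, x_br, y_br, z_br, c_br, hB, hC, hV, hY, dd_zero_left, z_sm, z_zero, dot]
    linear_combination (-(x B * x C + y B * y C + z B * z C) * (x V * y Y - y V * x Y)) * h3

lemma sumP_mop (b c' v y' : At MM) :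
    sumP (mop b c' v y') = sm (dot (ev b) (ev c')) ⁅ev v, ev y'⁆ :=
  six (ev b) (ev c') (ev v) (ev y') (c_ev _) (c_ev _) (c_ev _) (c_ev _)

end MM

section General

variable {L : Type} [LieRing L]

lemma sumP_nil : sumP ([] : List (At L × At L)) = 0 := rfl

lemma sumP_cons (p : At L × At L) (P : List (At L × At L)) :
    sumP (p :: P) = ⁅ev p.1, ev p.2⁆ + sumP P := rfl

lemma sumP_append (P P' : List (At L × At L)) : sumP (P ++ P') = sumP P + sumP P' := by
  induction P with
  | nil => rw [List.nil_append, sumP_nil, zero_add]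
  | cons p P ih => rw [List.cons_append, sumP_cons, sumP_cons, ih, add_assoc]

lemma TT_nil (f : List (Gn L)) : TT ([] : List (Hn L)) f = 0 := rfl

lemma TT_cons (e : Hn L) (H : List (Hn L)) (f : List (Gn L)) :
    TT (e :: H) f = T1 f e + TT H f := rfl

end General

namespace MM

/-- the value of a generator -/
noncomputable def gval (g : Gn MM) : RR := dot ⁅ev g.1, ev g.2.1⁆ (ev g.2.2)

/-- the value of a formal scalar -/
noncomputable def sval (s : List (Gn MM)) : RR := (s.map gval).sum

/-- the value of a generator of the second kind -/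
noncomputable def hval (e : Hn MM) : RR := dot ⁅ev e.1, ev e.2.1⁆ ⁅ev e.2.2.1, ev e.2.2.2⁆

/-- the value of a formal scalar of the second kind -/
noncomputable def Hval (H : List (Hn MM)) : RR := (H.map hval).sum

lemma sval_nil : sval [] = 0 := rfl
lemma sval_cons (g : Gn MM) (s : List (Gn MM)) : sval (g :: s) = gval g + sval s := by
  simp [sval]
lemma sval_append (s s' : List (Gn MM)) : sval (s ++ s') = sval s + sval s' := by
  simp [sval]
lemma Hval_nil : Hval [] = 0 := rfl
lemma Hval_cons (g : Hn MM) (s : List (Hn MM)) : Hval (g :: s) = hval g + Hval s := by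
  simp [Hval]
lemma Hval_append (s s' : List (Hn MM)) : Hval (s ++ s') = Hval s + Hval s' := by
  simp [Hval]

lemma sumP_actP (f : List (Gn MM)) (v y' : At MM) :
    sumP (actP f v y') = sm (sval f) ⁅ev v, ev y'⁆ := by
  induction f with
  | nil => rw [sval_nil, sm_zero]; rfl
  | cons g f ih =>
    have : actP (g :: f) v y' = mop (ev g.1, ev g.2.1) g.2.2 v y' ++ actP f v y' := by
      simp [actP]
    rw [this, sumP_append, ih, sumP_mop, sval_cons, sm_add]
    rfl

lemma sval_pairs (P : List (At MM × At MM)) (q : At MM) :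
    sval (P.map (fun p => (p.1, p.2, q))) = dot (sumP P) (ev q) := by
  induction P with
  | nil => simp [sval_nil, sumP_nil, dot]
  | cons p P ih =>
    rw [List.map_cons, sval_cons, ih, sumP_cons, gval]
    simp only [dot, x_add, y_add, z_add]
    ring

lemma sval_mulG (b c' : At MM) (g : Gn MM) :
    sval (mulG b c' g) = dot (ev b) (ev c') * gval g := by
  rw [mulG, sval_pairs, sumP_mop, gval]
  simp only [dot, x_sm, y_sm, z_sm]
  ring

lemma sval_mul_one (b c' : At MM) (s : List (Gn MM)) :
    sval (s.flatMap fun g => mulG b c' g) = dot (ev b) (ev c') * sval s := by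
  induction s with
  | nil => simp [sval_nil]
  | cons g s ih => rw [List.flatMap_cons, sval_append, ih, sval_mulG, sval_cons, mul_add]

lemma sval_mul (s s' : List (Gn MM)) : sval (mul s s') = sval s * sval s' := by
  induction s with
  | nil => rw [sval_nil, zero_mul]; rfl
  | cons g s ih =>
    have : mul (g :: s) s' =
        (s'.flatMap fun g' => mulG (ev g.1, ev g.2.1) g.2.2 g') ++ mul s s' := by
      simp [mul]
    rw [this, sval_append, ih, sval_mul_one, sval_cons, add_mul]
    rfl

lemma sval_hmul (H : List (Hn MM)) (s' : List (Gn MM)) :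
    sval (hmul H s') = Hval H * sval s' := by
  induction H with
  | nil => rw [Hval_nil, zero_mul]; rfl
  | cons g H ih =>
    have : hmul (g :: H) s' =
        (s'.flatMap fun g' => mulG (ev g.1, ev g.2.1) (ev g.2.2.1, ev g.2.2.2) g')
          ++ hmul H s' := by
      simp [hmul]
    rw [this, sval_append, ih, sval_mul_one, Hval_cons, add_mul]
    rfl

lemma sval_dG (x' : MM) (g : Gn MM) : sval (dG x' g) = - dd (c x') (gval g) := by
  simp only [dG, sval_cons, sval_nil, gval, dA]
  have e1 : ∀ p : At MM, ev (ev p, x') = ⁅ev p, x'⁆ := fun _ => rfl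
  simp only [e1]
  generalize hA : ev g.1 = A
  generalize hB : ev g.2.1 = B
  generalize hC : ev g.2.2 = C
  have cA : c A = 0 := by rw [← hA, c_ev]
  have cB : c B = 0 := by rw [← hB, c_ev]
  have cC : c C = 0 := by rw [← hC, c_ev]
  simp only [dot, x_br, y_br, z_br, c_br, cA, cB, cC, dd_zero_left, dd_add, dd_sub, dd_mul,
    dd_zero]
  ring

lemma sval_dS (x' : MM) (s : List (Gn MM)) : sval (dS x' s) = - dd (c x') (sval s) := by
  induction s with
  | nil => rw [sval_nil, dd_zero, neg_zero]; rfl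
  | cons g s ih =>
    have : dS x' (g :: s) = dG x' g ++ dS x' s := by simp [dS]
    rw [this, sval_append, ih, sval_dG, sval_cons, dd_add]
    ring

lemma Hval_dH (x' : MM) (g : Hn MM) : Hval (dH x' g) = - dd (c x') (hval g) := by
  simp only [dH, Hval_cons, Hval_nil, hval, dA]
  have e1 : ∀ p : At MM, ev (ev p, x') = ⁅ev p, x'⁆ := fun _ => rfl
  simp only [e1]
  generalize hA : ev g.1 = A
  generalize hB : ev g.2.1 = B
  generalize hC : ev g.2.2.1 = C
  generalize hD : ev g.2.2.2 = D
  have cA : c A = 0 := by rw [← hA, c_ev]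
  have cB : c B = 0 := by rw [← hB, c_ev]
  have cC : c C = 0 := by rw [← hC, c_ev]
  have cD : c D = 0 := by rw [← hD, c_ev]
  simp only [dot, x_br, y_br, z_br, c_br, cA, cB, cC, cD, dd_zero_left, dd_add, dd_sub, dd_mul,
    dd_zero]
  ring

lemma Hval_flat (x' : MM) (s : List (Hn MM)) :
    Hval (s.flatMap (dH x')) = - dd (c x') (Hval s) := by
  induction s with
  | nil => rw [Hval_nil, dd_zero, neg_zero]; rfl
  | cons g s ih =>
    rw [List.flatMap_cons, Hval_append, ih, Hval_dH, Hval_cons, dd_add]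
    ring

lemma Hval_HH (z' : MM) (e : Hn MM) : Hval (HH z' e) = dd (c z') (dd (c z') (hval e)) := by
  rw [HH, Hval_flat, Hval_dH, dd_neg, neg_neg]

lemma eE_HH (z' : MM) (e : Hn MM) : eE (Hval (HH z' e)) = 0 := by
  rw [Hval_HH, dd_dd]

lemma th_neg (c' : F3 × F3) : th (-c') = - th c' := by
  have h := th_add c' (-c')
  rw [add_neg_cancel, th_zero] at h
  exact (neg_eq_of_add_eq_zero_right h.symm).symm

lemma sval_XX (H : List (Hn MM)) (x' : MM) (f : List (Gn MM)) :
    sval (XX H x' f) = sval f * (sval f * (Hval H * (Hval H * (th (- c x') * eE (sval f))))) := by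
  rw [XX, sval_mul, sval_mul, sval_hmul, sval_hmul, sval_dS, dd, th_neg, neg_mul]

lemma sval_neg (f : List (Gn MM)) : sval (neg f) = - sval f := by
  induction f with
  | nil => rw [sval_nil, neg_zero]; rfl
  | cons g f ih =>
    have : neg (g :: f) = (g.2.1, g.1, g.2.2) :: neg f := rfl
    rw [this, sval_cons, sval_cons, ih]
    have : gval (g.2.1, g.1, g.2.2) = - gval g := by
      simp only [gval]
      rw [← lie_skew]
      simp only [dot]
      have hx : ∀ a : MM, x (-a) = - x a := fun _ => rfl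
      have hy : ∀ a : MM, y (-a) = - y a := fun _ => rfl
      have hz : ∀ a : MM, z (-a) = - z a := fun _ => rfl
      rw [hx, hy, hz]
      ring
    rw [this]
    ring

lemma TT_eq_zero (H : List (Hn MM)) (f : List (Gn MM)) : TT H f = 0 := by
  induction H with
  | nil => rfl
  | cons e H ih =>
    rw [TT_cons, ih, add_zero, T1]
    simp only [sig_br, sig_ad, sumP_actP]
    generalize hA : (⁅ev e.1, ev e.2.1⁆ : MM) = A
    generalize hB : (⁅ev e.2.2.1, ev e.2.2.2⁆ : MM) = B
    have cA : c A = 0 := by rw [← hA, c_br]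
    have cB : c B = 0 := by rw [← hB, c_br]
    apply ext'
    · simp
    · simp only [x_add, x_br, c_sm, x_sm, y_sm, z_sm, cA, cB, dd_zero_left, x_zero]; ring
    · simp only [y_add, y_br, c_sm, x_sm, y_sm, z_sm, cA, cB, dd_zero_left, y_zero]; ring
    · simp only [z_add, z_br, c_sm, x_sm, y_sm, z_sm, cA, cB, dd_zero_left, z_zero]; ring

end MM

end Run7.h11.Q
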