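import Pool.Agent.Run7.h11.Q.Form
import Pool.Agent.Run7.h11.Q.Eval

set_option autoImplicit false

/-!
Functions of finite degree on lists, and the reduction of the identities with formal scalars to
finitely many of them.
-/

namespace Run7.h11.Q

section Deg

variable {G A B C : Type} [AddCommGroup A] [AddCommGroup B] [AddCommGroup C]

/-- functions of degree at most `n` -/
def IsDeg : ℕ → (List G → A) → Prop
  | 0, F => ∀ l, F l = F []
  | n + 1, F => ∀ g, IsDeg n (fun l => F (g :: l) - F l)

lemma IsDeg.vanish {n : ℕ} {F : List G → A} (h : IsDeg n F)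
    (h0 : ∀ l, l.length ≤ n → F l = 0) : ∀ l, F l = 0 := by
  induction n generalizing F with
  | zero =>
    intro l
    rw [h l]
    exact h0 [] (le_refl _)
  | succ n ih =>
    intro l
    induction l with
    | nil => exact h0 [] (Nat.zero_le _)
    | cons g l ihl =>
      have h1 := ih (h g) (by
        intro l' hl'
        rw [h0 (g :: l') (by simpa using hl'), h0 l' (by omega), sub_zero]) l
      rw [sub_eq_zero] at h1
      rw [h1, ihl]

lemma IsDeg.succ {n : ℕ} {F : List G → A} (h : IsDeg n F) : IsDeg (n + 1) F := by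
  induction n generalizing F with
  | zero =>
    intro g l
    simp only
    rw [h (g :: l), h l, h [g]]
  | succ n ih =>
    intro g
    exact ih (h g)

lemma IsDeg.mono {n m : ℕ} {F : List G → A} (h : IsDeg n F) (hm : n ≤ m) : IsDeg m F := by
  induction hm with
  | refl => exact h
  | step _ ih => exact ih.succ

lemma IsDeg.add {n : ℕ} {F F' : List G → A} (h : IsDeg n F) (h' : IsDeg n F') :
    IsDeg n (fun l => F l + F' l) := by
  induction n generalizing F F' with
  | zero => intro l; simp only; rw [h l, h' l]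
  | succ n ih =>
    intro g
    have := ih (h g) (h' g)
    have e : (fun l => F (g :: l) - F l + (F' (g :: l) - F' l)) =
        (fun l => F (g :: l) + F' (g :: l) - (F l + F' l)) := by
      funext l; abel
    rw [e] at this
    exact this

lemma IsDeg.map {n : ℕ} {F : List G → A} (h : IsDeg n F) (φ : A →+ B) :
    IsDeg n (fun l => φ (F l)) := by
  induction n generalizing F with
  | zero => intro l; simp only; rw [h l]
  | succ n ih =>
    intro g
    have := ih (h g)
    have e : (fun l => φ (F (g :: l) - F l)) = (fun l => φ (F (g :: l)) - φ (F l)) := by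
      funext l; rw [map_sub]
    rw [e] at this
    exact this

lemma IsDeg.sub {n : ℕ} {F F' : List G → A} (h : IsDeg n F) (h' : IsDeg n F') :
    IsDeg n (fun l => F l - F' l) := by
  have h2 := h'.map (-(AddMonoidHom.id A))
  have := h.add h2
  have e : (fun l => F l + (-(AddMonoidHom.id A)) (F' l)) = (fun l => F l - F' l) := by
    funext l; simp [sub_eq_add_neg]
  rw [e] at this
  exact this

lemma IsDeg.const (n : ℕ) (a : A) : IsDeg n (fun _ : List G => a) := by
  have h : IsDeg 0 (fun _ : List G => a) := fun _ => rfl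
  exact h.mono (Nat.zero_le _)

lemma IsDeg.bilin (μ : A →+ B →+ C) {m n : ℕ} {F : List G → A} {F' : List G → B}
    (h : IsDeg m F) (h' : IsDeg n F') : IsDeg (m + n) (fun l => μ (F l) (F' l)) := by
  induction m generalizing F F' n with
  | zero =>
    have e : (fun l => μ (F l) (F' l)) = (fun l => μ (F []) (F' l)) := by
      funext l; rw [h l]
    rw [e, Nat.zero_add]
    exact h'.map (μ (F []))
  | succ m ihm =>
    induction n generalizing F' with
    | zero =>
      have e : (fun l => μ (F l) (F' l)) = (fun l => μ.flip (F' []) (F l)) := by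
        funext l; rw [h' l]; rfl
      rw [e]
      exact h.map (μ.flip (F' []))
    | succ n ihn =>
      intro g
      have h1 := ihm (h g) h'
      have h2 := ihn (h' g)
      have h3 := ihm (h g) (h' g)
      have h1' : IsDeg (m + 1 + n) (fun l => μ (F (g :: l) - F l) (F' l)) :=
        h1.mono (by omega)
      have h3' : IsDeg (m + 1 + n) (fun l => μ (F (g :: l) - F l) (F' (g :: l) - F' l)) :=
        h3.mono (by omega)
      have h4 := (h1'.add h2).add h3'
      have e : (fun l => μ (F (g :: l) - F l) (F' l) + μ (F l) (F' (g :: l) - F' l) +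
          μ (F (g :: l) - F l) (F' (g :: l) - F' l)) =
          (fun l => μ (F (g :: l)) (F' (g :: l)) - μ (F l) (F' l)) := by
        funext l
        simp only [map_sub, AddMonoidHom.sub_apply]
        abel
      rw [e] at h4
      exact h4

end Deg

section FA

variable {G X Y W : Type}

/-- the formal sum of a list -/
def fa (s : List X) : FreeAbelianGroup X := (s.map FreeAbelianGroup.of).sum

lemma fa_nil : fa ([] : List X) = 0 := rfl
lemma fa_cons (x : X) (s : List X) : fa (x :: s) = FreeAbelianGroup.of x + fa s := by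
  simp [fa]
lemma fa_append (s s' : List X) : fa (s ++ s') = fa s + fa s' := by
  simp [fa]

lemma lift_fa {A : Type} [AddCommGroup A] (k : X → A) (s : List X) :
    FreeAbelianGroup.lift k (fa s) = (s.map k).sum := by
  induction s with
  | nil => simp [fa_nil]
  | cons x s ih => rw [fa_cons, map_add, ih, FreeAbelianGroup.lift_apply_of, List.map_cons,
      List.sum_cons]

lemma fa_flatMap (s : List X) (k : X → List Y) :
    fa (s.flatMap k) = FreeAbelianGroup.lift (fun x => fa (k x)) (fa s) := by
  induction s with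
  | nil => simp [fa_nil]
  | cons x s ih => rw [List.flatMap_cons, fa_append, ih, fa_cons, map_add,
      FreeAbelianGroup.lift_apply_of]

/-- the bilinear map of an operation on lists -/
def biK (K : X → Y → List W) :
    FreeAbelianGroup X →+ FreeAbelianGroup Y →+ FreeAbelianGroup W :=
  FreeAbelianGroup.lift (fun x => FreeAbelianGroup.lift (fun y => fa (K x y)))

lemma fa_bi (K : X → Y → List W) (s : List X) (s' : List Y) :
    fa (s.flatMap fun x => s'.flatMap (K x)) = biK K (fa s) (fa s') := by
  induction s with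
  | nil => simp [fa_nil]
  | cons x s ih =>
    rw [List.flatMap_cons, fa_append, ih, fa_cons, map_add, AddMonoidHom.add_apply, fa_flatMap]
    congr 1
    rw [biK, FreeAbelianGroup.lift_apply_of]

/-- list valued functions of degree at most `n` -/
def DegL (n : ℕ) (F : List G → List X) : Prop := IsDeg n (fun l => fa (F l))

lemma DegL.flatMap {n : ℕ} {F : List G → List X} (h : DegL n F) (k : X → List Y) :
    DegL n (fun l => (F l).flatMap k) := by
  have := IsDeg.map h (FreeAbelianGroup.lift (fun x => fa (k x)))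
  simp only [← fa_flatMap] at this
  exact this

lemma DegL.bi {m n : ℕ} {F : List G → List X} {F' : List G → List Y} (h : DegL m F)
    (h' : DegL n F') (K : X → Y → List W) :
    DegL (m + n) (fun l => (F l).flatMap fun x => (F' l).flatMap (K x)) := by
  have := IsDeg.bilin (biK K) h h'
  simp only [← fa_bi] at this
  exact this

lemma DegL.append {n : ℕ} {F F' : List G → List X} (h : DegL n F) (h' : DegL n F') :
    DegL n (fun l => F l ++ F' l) := by
  have := IsDeg.add h h'
  simp only [← fa_append] at this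
  exact this

lemma DegL.const (n : ℕ) (s : List X) : DegL n (fun _ : List G => s) := IsDeg.const n _

lemma DegL.id : DegL 1 (fun l : List G => l) := by
  intro g l
  simp only [fa_cons, add_sub_cancel_right]

end FA

section Ops

variable {G L : Type} [LieRing L]

lemma DegL.mul {m n : ℕ} {F F' : List G → List (Gn L)} (h : DegL m F) (h' : DegL n F') :
    DegL (m + n) (fun l => Q.mul (F l) (F' l)) :=
  DegL.bi h h' (fun g g' => mulG (ev g.1, ev g.2.1) g.2.2 g')

lemma DegL.hmul {n : ℕ} (H : List (Hn L)) {F' : List G → List (Gn L)} (h' : DegL n F') :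
    DegL (0 + n) (fun l => Q.hmul H (F' l)) :=
  DegL.bi (DegL.const 0 H) h'
    (fun e g' => mulG (ev e.1, ev e.2.1) (ev e.2.2.1, ev e.2.2.2) g')

/-- degree of the basic operation -/
@[irreducible] def degX (n : ℕ) : ℕ := n + (n + (0 + (0 + n)))

lemma DegL.XX {n : ℕ} (H : List (Hn L)) (x : L) {F : List G → List (Gn L)} (h : DegL n F) :
    DegL (degX n) (fun l => Q.XX H x (F l)) := by
  have := h.mul (h.mul (DegL.hmul H (DegL.hmul H (h.flatMap (dG x)))))
  unfold degX
  exact this

omit [LieRing L] in
lemma DegL.neg {n : ℕ} {F : List G → List (Gn L)} (h : DegL n F) :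
    DegL n (fun l => Q.neg (F l)) := by
  have := h.flatMap (fun g => [((g.2.1, g.1, g.2.2) : Gn L)])
  have e : (fun l => (F l).flatMap (fun g => [((g.2.1, g.1, g.2.2) : Gn L)])) =
      (fun l => Q.neg (F l)) := by
    funext l
    rw [Q.neg, List.map_eq_flatMap]
  rw [e] at this
  exact this

/-- degree of the first letter -/
@[irreducible] def degA (n : ℕ) : ℕ := degX (degX n)
/-- degree of the second letter -/
@[irreducible] def degB (n : ℕ) : ℕ := degX (degA (degX n))

lemma DegL.al {n : ℕ} (H : List (Hn L)) (x1 x2 : L) {F : List G → List (Gn L)} (h : DegL n F) :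
    DegL (degA n) (fun l => Q.al H x1 x2 (F l)) := by
  have h1 := (h.XX H x2).XX H x1
  have h2 := ((h.XX H x1).XX H x2).neg
  have h3 := h1.append h2
  unfold degA
  exact h3

lemma DegL.be {n : ℕ} (H : List (Hn L)) (x1 x2 : L) {F : List G → List (Gn L)} (h : DegL n F) :
    DegL (degB n) (fun l => Q.be H x1 x2 (F l)) := by
  have h1 := ((h.XX H x2).al H x1 x2).XX H x1
  have h2 := (((h.XX H x1).al H x1 x2).XX H x2).neg
  have h3 := h1.append h2
  unfold degB
  exact h3

/-- degree of a word -/
def degW (w : List Bool) (n : ℕ) : ℕ := w.foldr (fun a k => bif a then degA k else degB k) n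

lemma DegL.wd {n : ℕ} (H : List (Hn L)) (x1 x2 : L) (w : List Bool)
    {F : List G → List (Gn L)} (h : DegL n F) :
    DegL (degW w n) (fun l => Q.wd H x1 x2 w (F l)) := by
  induction w with
  | nil => exact h
  | cons a w ih =>
    cases a
    · exact ih.be H x1 x2
    · exact ih.al H x1 x2

lemma sumP_eq (P : List (At L × At L)) :
    sumP P = FreeAbelianGroup.lift (fun p : At L × At L => (⁅ev p.1, ev p.2⁆ : L)) (fa P) := by
  rw [lift_fa]
  induction P with
  | nil => rfl
  | cons p P ih => rw [sumP_cons, ih, List.map_cons, List.sum_cons]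

lemma DegL.sumP {n : ℕ} {F : List G → List (Gn L)} (h : DegL n F) (v y : At L) :
    IsDeg n (fun l => Q.sumP (actP (F l) v y)) := by
  have h1 : DegL n (fun l => actP (F l) v y) :=
    h.flatMap (fun g => mop (ev g.1, ev g.2.1) g.2.2 v y)
  have h2 := IsDeg.map h1
    (FreeAbelianGroup.lift (fun p : At L × At L => (⁅ev p.1, ev p.2⁆ : L)))
  simp only [← sumP_eq] at h2
  exact h2

/-- bracket with a constant on the right -/
def brR (c : L) : L →+ L where
  toFun a := ⁅a, c⁆
  map_zero' := by simp
  map_add' := by simp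

/-- bracket with a constant on the left -/
def brL (c : L) : L →+ L where
  toFun a := ⁅c, a⁆
  map_zero' := by simp
  map_add' := by simp

lemma DegL.T1 {n : ℕ} {F : List G → List (Gn L)} (h : DegL n F) (e : Hn L) :
    IsDeg n (fun l => Q.T1 (F l) e) :=
  ((h.sumP e.1 e.2.1).map (brR (Sig.br (ev e.2.2.1) (ev e.2.2.2)))).add
    ((h.sumP e.2.2.1 e.2.2.2).map (brR (Sig.br (ev e.1) (ev e.2.1))))

lemma DegL.TT {n : ℕ} (H : List (Hn L)) {F : List G → List (Gn L)} (h : DegL n F) :
    IsDeg n (fun l => Q.TT H (F l)) := by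
  induction H with
  | nil => exact IsDeg.const n 0
  | cons e H ih => exact (h.T1 e).add ih

lemma Idv_deg1 (y x1 x2 z : L) (e : Hn L) (f0 : List (Gn L)) (w1 w2 : List Bool)
    (f2 : List (Gn L)) :
    IsDeg (degA (degW w1 1)) (fun f1 => Idv y x1 x2 z e f0 w1 w2 f1 f2) := by
  have h1 : DegL (degW w1 1) (fun f1 : List (Gn L) => Q.wd (HH z e) x1 x2 w1 f1) :=
    DegL.id.wd (HH z e) x1 x2 w1
  have h2 := (h1.al (HH z e) x1 x2).TT (HH z e)
  have h3 := (h2.map (brL (Sig.br y (Q.TT (HH z e) f0)))).map
    (brR (Q.TT (HH z e) (Q.be (HH z e) x1 x2 (Q.wd (HH z e) x1 x2 w2 f2))))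
  exact h3

lemma Idv_deg2 (y x1 x2 z : L) (e : Hn L) (f0 : List (Gn L)) (w1 w2 : List Bool)
    (f1 : List (Gn L)) :
    IsDeg (degB (degW w2 1)) (fun f2 => Idv y x1 x2 z e f0 w1 w2 f1 f2) := by
  have h1 : DegL (degW w2 1) (fun f2 : List (Gn L) => Q.wd (HH z e) x1 x2 w2 f2) :=
    DegL.id.wd (HH z e) x1 x2 w2
  have h2 := (h1.be (HH z e) x1 x2).TT (HH z e)
  have h3 := h2.map (brL (Sig.br (Sig.br y (Q.TT (HH z e) f0))
      (Q.TT (HH z e) (Q.al (HH z e) x1 x2 (Q.wd (HH z e) x1 x2 w1 f1)))))
  exact h3

/-- a bound for the degrees -/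
def dgb (w1 w2 w1' w2' : List Bool) : ℕ :=
  degA (degW w1 1) + degB (degW w2 1) + degA (degW w1' 1) + degB (degW w2' 1)

lemma Idv_ext (y x1 x2 z : L) (e : Hn L) (f0 : List (Gn L)) (w1 w2 w1' w2' : List Bool)
    (d : ℕ) (hd : dgb w1 w2 w1' w2' ≤ d)
    (h : ∀ f1 f2 : List (Gn L), f1.length ≤ d → f2.length ≤ d →
      Idv y x1 x2 z e f0 w1 w2 f1 f2 = Idv y x1 x2 z e f0 w1' w2' f1 f2)
    (f1 f2 : List (Gn L)) :
    Idv y x1 x2 z e f0 w1 w2 f1 f2 = Idv y x1 x2 z e f0 w1' w2' f1 f2 := by
  unfold dgb at hd
  have step1 : ∀ f2 : List (Gn L), f2.length ≤ d → ∀ f1 : List (Gn L),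
      Idv y x1 x2 z e f0 w1 w2 f1 f2 - Idv y x1 x2 z e f0 w1' w2' f1 f2 = 0 := by
    intro f2 hf2
    have hdeg := ((Idv_deg1 y x1 x2 z e f0 w1 w2 f2).mono
      (show degA (degW w1 1) ≤ d by omega)).sub
      ((Idv_deg1 y x1 x2 z e f0 w1' w2' f2).mono (show degA (degW w1' 1) ≤ d by omega))
    exact hdeg.vanish (fun l hl => sub_eq_zero.mpr (h l f2 hl hf2))
  have hdeg := ((Idv_deg2 y x1 x2 z e f0 w1 w2 f1).mono
      (show degB (degW w2 1) ≤ d by omega)).sub
      ((Idv_deg2 y x1 x2 z e f0 w1' w2' f1).mono (show degB (degW w2' 1) ≤ d by omega))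
  exact sub_eq_zero.mp (hdeg.vanish (fun l hl => step1 l hl f1) f2)

end Ops

end Run7.h11.Q
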