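import Pool.Agent.Run7.h11.Q.Grp

set_option autoImplicit false

/-!
The final assembly: a finite list of identities of Lie rings with an undecidable set of
consequences.

Sketch of the proof.  Characteristic three.  Let `R = 𝔽₃[θ₁, θ₂, ξ]`, `E` the Euler derivation in
`θ₁, θ₂`, `D` the one in `ξ`; so `E³ = E`, `D³ = D`, `[E, D] = 0`.
* (`Ring`) For `d = E, D` one has `f² df = (df)³ + d(d(f² df))`.  Hence for an additive `Ψ` with
  `Ψ ∘ E = Ψ`, `Ψ ∘ D = 0`, `Ψ(θᵢ G³) = aᵢ Ψ(G)`, and for `E h = 0`, putting
  `X_i(f) = f² h² θᵢ E f`, one has `Ψ(X_i(f) D h) = aᵢ Ψ(f D h)` (`Psi_main`): a nested word applies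
  noncommuting operators `a₁, a₂` to a charge.  Such `Ψ` exists for all operators `a₁, a₂`, by
  recursion on monomials.
* (`Kring`) `a₁, a₂` are chosen such that `[a₁, a₂]` and `a₁[a₁,a₂]a₂ - a₂[a₁,a₂]a₁` push the
  letters `true`, `false` on a stack, and the charges live in a commutative ring `K` in which the
  product of two stacks `x`, `y` is the class of the word `rev x · y`.
* (`MM`, `Cen`) `M = (𝔽₃ θ₁E ⊕ 𝔽₃ θ₂E) ⋉ so₃(R)` with the cocycle `-ψ(u · D w)`, which is an
  eigenvector (eigenvalue 1) of the derivation `E` of `M`; so the central extension of `M` by `K`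
  acts on the polynomials over `K` in a basis of `M` with `K` acting by scalars.  The model is the
  semidirect product.
* (`Form`) Scalars of `R` are written by words: `(b · c)[v, y]` is a Lie polynomial in
  `so₃` in characteristic three; the value of the central word `TT (HH z e) f` is the charge
  `ψ(f D h)`, `h` being a second derivative along `z`, hence `E h = 0`.
* (`Eval`, `Charge`, `Ident`, `Sep`) The identities that move a letter from one stack to the other and
  that apply a rewriting rule hold in the model for all values of the variables, and the identities of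
  inequivalent words fail.
* (`Deg`, `Tok`) In an arbitrary Lie ring the words have finite degree in the formal scalars, so the
  identities for all formal scalars follow from those with a bounded number of summands: finitely
  many identities; then all identities of equivalent words follow.
* (`Prim`, `Grp`) The identities are computable from the words; a finitely presented group with
  undecidable word problem is coded by rewriting rules on words in two letters.
-/

namespace Run7.h11.Q

open Pool.Agent.Helper270.WP

section

variable {m : ℕ} (N : Subgroup (FreeGroup (Fin m))) [N.Normal]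

/-- the letters in the group -/
def gvG (k : ℕ) : FreeGroup (Fin m) ⧸ N :=
  if h : k / 2 < m then
    QuotientGroup.mk (FreeGroup.mk [((⟨k / 2, h⟩ : Fin m), decide (k % 2 = 1))])
  else 1

lemma gvG_idx (x : Fin m × Bool) : gvG N (idx x) = QuotientGroup.mk (FreeGroup.mk [x]) := by
  obtain ⟨i, b⟩ := x
  have hi := i.isLt
  cases b
  · have h1 : idx (i, false) / 2 = i := by simp only [idx, Bool.toNat_false]; omega
    have h2 : idx (i, false) % 2 = 0 := by simp only [idx, Bool.toNat_false]; omega
    have h : idx (i, false) / 2 < m := by omega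
    rw [gvG, dif_pos h, h2]
    simp only [h1, Fin.eta, zero_ne_one, decide_false]
  · have h1 : idx (i, true) / 2 = i := by simp only [idx, Bool.toNat_true]; omega
    have h2 : idx (i, true) % 2 = 1 := by simp only [idx, Bool.toNat_true]; omega
    have h : idx (i, true) / 2 < m := by omega
    rw [gvG, dif_pos h, h2]
    simp only [h1, Fin.eta, decide_true]

lemma prod_gvG (w : List (Fin m × Bool)) :
    (w.map (fun x => gvG N (idx x))).prod = QuotientGroup.mk (FreeGroup.mk w) := by
  induction w with
  | nil => simp only [List.map_nil, List.prod_nil]; rfl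
  | cons x w ih =>
    have e1 : FreeGroup.mk (x :: w) = FreeGroup.mk [x] * FreeGroup.mk w := by
      rw [FreeGroup.mul_mk]; rfl
    rw [List.map_cons, List.prod_cons, ih, gvG_idx, e1, QuotientGroup.mk_mul]

end

/-- the relators -/
def baseOf {m : ℕ} (R : List (List (Fin m × Bool))) : List (List (Fin m × Bool)) :=
  ((List.finRange m).flatMap fun i => [[(i, true), (i, false)], [(i, false), (i, true)]]) ++ R

/-- the test identity of a word -/
def test (m : ℕ) (w : List (Fin m × Bool)) : List (ℕ ⊕ ℕ) × List (ℕ ⊕ ℕ) :=
  (Tm.comp (IdX Tm.v [] (encT (2 * m) w) 1 1), Tm.comp (IdX Tm.v [] (cdN (2 * m)) 1 1))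

lemma pr_test (m : ℕ) : Primrec (test m) := by
  have h1 : Primrec (fun x : Fin m × Bool => cdN (idx x)) := Primrec.dom_finite _
  have h2 : Primrec (fun w : List (Fin m × Bool) => lW w) :=
    Primrec.list_flatMap Primrec.id (h1.comp Primrec.snd).to₂
  have h3 : Primrec (fun w : List (Fin m × Bool) => encT (2 * m) w) :=
    Primrec.list_append.comp (Primrec.const (cdN (2 * m))) h2
  exact Primrec.pair (pr_IdX.comp h3) (Primrec.const _)

/-- the consequences of a finite list of identities -/
def ThQ (E : List (List (ℕ ⊕ ℕ) × List (ℕ ⊕ ℕ))) (p : List (ℕ ⊕ ℕ) × List (ℕ ⊕ ℕ)) : Prop :=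
  ∀ (L : Type) [LieRing L], (∀ e ∈ E, Hld L e) → Hld L p

lemma th_test {m : ℕ} (R : Finset (FreeGroup (Fin m))) (w : List (Fin m × Bool)) :
    ThQ (EQ (rulesOf m (baseOf (R.toList.map FreeGroup.toWord)))) (test m w) ↔
      FreeGroup.mk w ∈ Subgroup.normalClosure (R : Set (FreeGroup (Fin m))) := by
  classical
  constructor
  · intro h
    let N := Subgroup.normalClosure (R : Set (FreeGroup (Fin m)))
    let G := FreeGroup (Fin m) ⧸ N
    let cls : List Bool → Option (G × Option ℕ) := clsG G (gvG N)
    have hE : ∀ e ∈ EQ (rulesOf m (baseOf (R.toList.map FreeGroup.toWord))),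
        Hld (LK _ cls) e := by
      rw [EQ_iff]
      refine ⟨fun a y x1 x2 z e f0 f1 f2 => move_K y x1 x2 z e [f0] a f1 f2, ?_⟩
      intro r hr
      obtain ⟨t, ht, l, hl, rfl⟩ := mem_rulesOf.mp hr
      intro y x1 x2 z e f0 f1 f2
      refine rule_K y x1 x2 z e [f0] _ _ (wtW_encT t l) (wtW_cdN t) ?_ f1 f2
      intro u v
      apply clsG_rule
      rw [prod_gvG]
      rw [baseOf, List.mem_append] at hl
      rcases hl with hl | hl
      · rw [List.mem_flatMap] at hl
        obtain ⟨i, -, hl⟩ := hl
        simp only [List.mem_cons, List.not_mem_nil, or_false] at hl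
        rcases hl with rfl | rfl
        · have : FreeGroup.mk [(i, true), (i, false)] = (1 : FreeGroup (Fin m)) := by
            apply FreeGroup.toWord_injective
            simp [FreeGroup.toWord_mk, FreeGroup.reduce]
          rw [this]; rfl
        · have : FreeGroup.mk [(i, false), (i, true)] = (1 : FreeGroup (Fin m)) := by
            apply FreeGroup.toWord_injective
            simp [FreeGroup.toWord_mk, FreeGroup.reduce]
          rw [this]; rfl
      · rw [List.mem_map] at hl
        obtain ⟨r', hr', rfl⟩ := hl
        rw [FreeGroup.mk_toWord, QuotientGroup.eq_one_iff]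
        exact Subgroup.subset_normalClosure (Finset.mem_coe.mpr (Finset.mem_toList.mp hr'))
    have h1 := h (LK _ cls) hE
    have h2 := h1 (asgn (yK _ cls) (x1K _ cls) (x2K _ cls) (x1K _ cls) (eK _ cls) (f0K _ cls)
      [f1K _ cls] [f1K _ cls])
    simp only [test] at h2
    rw [evl_IdX, evl_IdX] at h2
    have h3 := IdX_asgn (yK _ cls) (x1K _ cls) (x2K _ cls) (x1K _ cls) (eK _ cls) (f0K _ cls)
      [f1K _ cls] [f1K _ cls] [] (encT (2 * m) w)
    have h4 := IdX_asgn (yK _ cls) (x1K _ cls) (x2K _ cls) (x1K _ cls) (eK _ cls) (f0K _ cls)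
      [f1K _ cls] [f1K _ cls] [] (cdN (2 * m))
    simp only [List.length_cons, List.length_nil, Nat.zero_add] at h3 h4
    rw [h3, h4] at h2
    have h5 := sep_K _ cls _ _ h2
    have h6 : cls (encT (2 * m) w) = _ := clsG_encT G (gvG N) (2 * m) w
    have h7 : cls (cdN (2 * m)) = some (gvG N (2 * m) * 1, none) := by
      rw [← encT_nil (m := m)]; exact clsG_encT G (gvG N) (2 * m) []
    rw [h6, h7, prod_gvG] at h5
    simp only [Option.some.injEq, Prod.mk.injEq, and_true, mul_right_inj] at h5
    have h8 : (QuotientGroup.mk (FreeGroup.mk w) : G) = 1 := h5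
    rw [QuotientGroup.eq_one_iff] at h8
    exact h8
  · intro hw L _ hL
    rw [EQ_iff] at hL
    have hd := derive (L := L) (base := baseOf (R.toList.map FreeGroup.toWord)) hL.1 hL.2
      (by
        intro i
        simp only [baseOf, List.mem_append, List.mem_flatMap]
        exact ⟨Or.inl ⟨i, List.mem_finRange i, by simp⟩, Or.inl ⟨i, List.mem_finRange i, by simp⟩⟩)
      (R : Set (FreeGroup (Fin m)))
      (by
        intro r hr
        refine ⟨r.toWord, ?_, FreeGroup.mk_toWord⟩
        simp only [baseOf, List.mem_append]
        exact Or.inr (List.mem_map.mpr ⟨r, Finset.mem_toList.mpr (Finset.mem_coe.mp hr), rfl⟩))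
      w hw (2 * m) (le_refl _)
    intro v
    show evl v _ = evl v _
    simp only [test]
    rw [evl_IdX, evl_IdX]
    exact hd _ _ _ _ _ _ _ _

/-- there is a finite list of identities of Lie rings with an undecidable set of consequences -/
theorem main : ∃ E : List (List (ℕ ⊕ ℕ) × List (ℕ ⊕ ℕ)), ¬ ComputablePred (ThQ E) := by
  obtain ⟨m, R, W, hW, hnc⟩ := word_problem
  refine ⟨EQ (rulesOf m (baseOf (R.toList.map FreeGroup.toWord))), fun h => hnc ?_⟩
  obtain ⟨f, hf, hTf⟩ := ComputablePred.computable_iff.1 h
  refine ComputablePred.computable_iff.2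
    ⟨fun n => f (test m (W n)), hf.comp ((pr_test m).to_comp.comp hW), ?_⟩
  funext n
  apply propext
  rw [← th_test R (W n), hTf]

end Run7.h11.Q
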