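import Pool.Agent.Run7.h11.Q.Ident

set_option autoImplicit false

/-!
The identities of different words are separated in the model.
-/

namespace Run7.h11.Q

namespace MM

/-- a vector -/
noncomputable def vec (a b e : RR) : MM := mk 0 a b e

lemma vec_br (a b e a' b' e' : RR) :
    ⁅vec a b e, vec a' b' e'⁆ = vec (b * e' - e * b') (e * a' - a * e') (a * b' - b * a') := by
  apply ext' <;> simp only [c_br, x_br, y_br, z_br, vec, c_mk, x_mk, y_mk, z_mk, dd_zero_left,
    sub_self, zero_add]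

lemma vec_dot (a b e a' b' e' : RR) :
    dot (vec a b e) (vec a' b' e') = a * a' + b * b' + e * e' := rfl

/-- formal bracket with value `(0, r, 0)` -/
noncomputable def atY (r : RR) : At MM := (vec 0 0 1, vec r 0 0)
/-- formal bracket with value `(0, 0, 1)` -/
noncomputable def atZ : At MM := (vec 1 0 0, vec 0 1 0)
/-- formal bracket with value `(1, 0, 0)` -/
noncomputable def atX : At MM := (vec 0 1 0, vec 0 0 1)

lemma ev_atY (r : RR) : ev (atY r) = vec 0 r 0 := by
  rw [ev_eq, atY, vec_br]; congr 1 <;> ring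
lemma ev_atZ : ev atZ = vec 0 0 1 := by
  rw [ev_eq, atZ, vec_br]; congr 1 <;> ring
lemma ev_atX : ev atX = vec 1 0 0 := by
  rw [ev_eq, atX, vec_br]; congr 1 <;> ring

/-- generator with a given value -/
noncomputable def gen (r : RR) : Gn MM := (atY r, atZ, atX)
/-- generator of the second kind with a given value -/
noncomputable def hen (r : RR) : Hn MM := (atY r, atZ, atY 1, atZ)

lemma gval_gen (r : RR) : gval (gen r) = r := by
  rw [gval, gen, ev_atY, ev_atZ, ev_atX, vec_br, vec_dot]; ring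

lemma hval_hen (r : RR) : hval (hen r) = r := by
  rw [hval, hen]
  simp only [ev_atY, ev_atZ, vec_br, vec_dot]; ring

end MM

section

variable (Q : Type) (cls : List Bool → Q)

/-- inclusion -/
noncomputable def inc (a : MM) : LK Q cls := LL.mk (dK Q cls) 0 a 0

lemma pm_inc (a : MM) : pmK Q cls (inc Q cls a) = a := rfl

lemma mG_inc (g : Gn MM) : mG (pmK Q cls) (mG (inc Q cls) g) = g := rfl
lemma mH_inc (g : Hn MM) : mH (pmK Q cls) (mH (inc Q cls) g) = g := rfl

/-- the element `y` -/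
noncomputable def yK : LK Q cls := LL.mk (dK Q cls) 1 0 0
/-- the element `x1` -/
noncomputable def x1K : LK Q cls := inc Q cls (MM.mk (1, 0) 0 0 0)
/-- the element `x2` -/
noncomputable def x2K : LK Q cls := inc Q cls (MM.mk (0, 1) 0 0 0)
/-- the generator of the second kind -/
noncomputable def eK : Hn (LK Q cls) :=
  mH (inc Q cls) (MM.hen (AddMonoidAlgebra.single (1, 0, 1) 1))
/-- the generator `f0` -/
noncomputable def f0K : Gn (LK Q cls) :=
  mG (inc Q cls) (MM.gen (AddMonoidAlgebra.single (5, 2, 2) 1))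
/-- the generator `f1` -/
noncomputable def f1K : Gn (LK Q cls) :=
  mG (inc Q cls) (MM.gen (AddMonoidAlgebra.single (2, 2, 2) 1))

lemma th_one : th (1, 0) = AddMonoidAlgebra.single (1, 0, 0) 1 := by
  simp [th]

lemma Hval_K : MM.Hval (HH (pmK Q cls (x1K Q cls)) (mH (pmK Q cls) (eK Q cls))) =
    AddMonoidAlgebra.single (3, 0, 1) 2 := by
  rw [eK, mH_inc, x1K, pm_inc, MM.Hval_HH, MM.hval_hen, MM.c_mk, dd, dd, th_one]
  simp only [eu_single, AddMonoidAlgebra.single_mul_single]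
  congr 1

lemma kap_K (m : Ex) :
    kap (x1K Q cls) (eK Q cls) [mG (inc Q cls) (MM.gen (AddMonoidAlgebra.single m 1))] =
      - (PsiZ Q cls (AddMonoidAlgebra.single (m + (3, 0, 1)) 2)).1 := by
  rw [kap_eq, Hval_K, List.map_cons, List.map_nil, mG_inc, MM.sval_cons, MM.sval_nil, add_zero,
    MM.gval_gen, eu_single, AddMonoidAlgebra.single_mul_single]
  have h : (1 : F3) * (wD (3, 0, 1) * 2) = 2 := by decide
  rw [h]

lemma kap_f1 : kap (x1K Q cls) (eK Q cls) [f1K Q cls] =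
    MonoidAlgebra.single (SS.e []) 1 := by
  rw [f1K, kap_K]
  have h : ((2, 2, 2) : Ex) + (3, 0, 1) = (5, 2, 3) := rfl
  rw [h, PsiZ, Psi_single, psi0, if_neg (by decide), if_neg (by decide), if_pos rfl]
  rw [Prod.smul_fst, MonoidAlgebra.smul_single, ← MonoidAlgebra.single_neg]
  congr 1

lemma kap_f0 : kap (x1K Q cls) (eK Q cls) [f0K Q cls] = 1 := by
  rw [f0K, kap_K]
  have h : ((5, 2, 2) : Ex) + (3, 0, 1) = (8, 2, 3) := rfl
  rw [h, PsiZ, Psi_single, psi0, if_neg (by decide), if_neg (by decide),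
    if_neg (by decide), if_pos rfl]
  rw [Prod.smul_fst, MonoidAlgebra.one_def, MonoidAlgebra.smul_single,
    ← MonoidAlgebra.single_neg]
  congr 1

lemma dt_K : dt (x1K Q cls) (x2K Q cls) = 1 := by
  rw [dt, x1K, x2K, pm_inc, pm_inc, MM.c_mk, MM.c_mk, det2]
  decide

lemma pv_K : LL.pv (dK Q cls) ⁅yK Q cls, TT (HH (x1K Q cls) (eK Q cls)) [f0K Q cls]⁆ = -1 := by
  have h0 : LL.pk (dK Q cls) (TT (HH (x1K Q cls) (eK Q cls)) [f0K Q cls]) = 1 := kap_f0 Q cls
  have h1 : LL.pm (dK Q cls) (TT (HH (x1K Q cls) (eK Q cls)) [f0K Q cls]) = 0 := pm_TT _ _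
  rw [LL.br_V (dK Q cls) (yK Q cls) _ (LL.pm_mk _ _ _ _) (LL.pk_mk _ _ _ _) h1, LL.pv_mk, h0]
  have h2 : LL.pv (dK Q cls) (yK Q cls) = 1 := rfl
  rw [h2, map_one, mul_one]

lemma Idv_K (w : List Bool) :
    Idv (yK Q cls) (x1K Q cls) (x2K Q cls) (x1K Q cls) (eK Q cls) [f0K Q cls] [] w
      [f1K Q cls] [f1K Q cls] =
    LL.mk (dK Q cls) (- MvPolynomial.C (MonoidAlgebra.single (SS.c (cls w)) 1)) 0 0 := by
  rw [Idv_eq, pv_K, kap_al, kap_be, kap_wd, kap_wd, kap_f1, dt_K]
  simp only [one_pow, one_smul, mul_one, pushW_nil]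
  rw [push_final]
  congr 1
  ring

lemma sep_K (w w' : List Bool)
    (h : Idv (yK Q cls) (x1K Q cls) (x2K Q cls) (x1K Q cls) (eK Q cls) [f0K Q cls] [] w
      [f1K Q cls] [f1K Q cls] =
      Idv (yK Q cls) (x1K Q cls) (x2K Q cls) (x1K Q cls) (eK Q cls) [f0K Q cls] [] w'
      [f1K Q cls] [f1K Q cls]) : cls w = cls w' := by
  rw [Idv_K, Idv_K] at h
  have h1 := congrArg (LL.pv (dK Q cls)) h
  rw [LL.pv_mk, LL.pv_mk, neg_inj] at h1
  have h2 := MvPolynomial.C_injective _ _ h1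
  rw [MonoidAlgebra.single_left_inj one_ne_zero] at h2
  injection h2

end

end Run7.h11.Q
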