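import Pool.Agent.Run7.h11.Q.Prim
import Pool.Agent.Run7.h11.Q.Sep
import Pool.Agent.Helper270.WPB

set_option autoImplicit false

/-!
Finitely presented groups coded by rewriting rules on words in two letters.
-/

namespace Run7.h11.Q

/-- the code of a letter -/
def cdN (k : ℕ) : List Bool := true :: (List.replicate (k + 1) false ++ [true])

section

variable {m : ℕ}

/-- the number of a letter -/
def idx (x : Fin m × Bool) : ℕ := 2 * x.1 + x.2.toNat

lemma idx_lt (x : Fin m × Bool) : idx x < 2 * m := by
  obtain ⟨i, b⟩ := x
  have := i.isLt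
  cases b <;> simp only [idx, Bool.toNat_false, Bool.toNat_true] <;> omega

/-- the code of a word -/
def lW (w : List (Fin m × Bool)) : List Bool := w.flatMap (fun x => cdN (idx x))

/-- the code of a word with a prefix -/
def encT (t : ℕ) (w : List (Fin m × Bool)) : List Bool := cdN t ++ lW w

lemma lW_append (w w' : List (Fin m × Bool)) : lW (w ++ w') = lW w ++ lW w' := by
  simp [lW]

lemma lW_cons (x : Fin m × Bool) (w : List (Fin m × Bool)) : lW (x :: w) = encT (idx x) w := by
  simp [lW, encT]

lemma wtW_append (u v : List Bool) : wtW (u ++ v) = wtW u + wtW v := by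
  simp [wtW]

lemma wtW_cdN (k : ℕ) : Even (wtW (cdN k)) := by
  have : wtW (cdN k) = 2 * (k + 2) := by
    simp [wtW, cdN, wt1]; ring
  rw [this]
  exact even_two_mul _

lemma wtW_lW (w : List (Fin m × Bool)) : Even (wtW (lW w)) := by
  induction w with
  | nil => exact ⟨0, rfl⟩
  | cons x w ih =>
    rw [lW_cons, encT, wtW_append]
    exact (wtW_cdN _).add ih

lemma wtW_encT (t : ℕ) (w : List (Fin m × Bool)) : Even (wtW (encT t w)) := by
  rw [encT, wtW_append]
  exact (wtW_cdN _).add (wtW_lW _)

lemma encT_nil (t : ℕ) : encT t ([] : List (Fin m × Bool)) = cdN t := by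
  simp [encT, lW]

/-- the rules of a finite list of relators -/
def rulesOf (m : ℕ) (base : List (List (Fin m × Bool))) : List (List Bool × List Bool) :=
  (List.range (2 * m + 1)).flatMap fun t => base.map fun l => (encT t l, cdN t)

lemma mem_rulesOf {base : List (List (Fin m × Bool))} {p : List Bool × List Bool} :
    p ∈ rulesOf m base ↔ ∃ t ≤ 2 * m, ∃ l ∈ base, (encT t l, cdN t) = p := by
  simp only [rulesOf, List.mem_flatMap, List.mem_map, List.mem_range, Nat.lt_succ_iff]

end

section Derive

variable {m : ℕ} {L : Type} [LieRing L] {base : List (List (Fin m × Bool))}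

/-- the congruence on words -/
def cng (hm : ∀ a : Bool, SimG L [a] [] [] [a]) : Con (FreeMonoid (Fin m × Bool)) where
  r w w' := ∀ t ≤ 2 * m, Sim L (encT t w.toList) (encT t w'.toList)
  iseqv :=
    { refl := fun _ _ _ => Sim.refl _
      symm := fun h t ht => (h t ht).symm
      trans := fun h h' t ht => (h t ht).trans (h' t ht) }
  mul' := by
    intro w x y z h1 h2 t ht
    simp only [FreeMonoid.toList_mul]
    have s1 : Sim L (encT t (w.toList ++ y.toList)) (encT t (x.toList ++ y.toList)) := by
      have := (h1 t ht).append_right (lW y.toList)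
      simp only [encT, lW_append, List.append_assoc] at this ⊢
      exact this
    refine s1.trans ?_
    rcases List.eq_nil_or_concat' x.toList with hx | ⟨x', a, hx⟩
    · rw [hx, List.nil_append, List.nil_append]
      exact h2 t ht
    · rw [hx]
      have := (h2 (idx a) (idx_lt a).le).append_left hm (cdN t ++ lW x')
      have e : ∀ v : List (Fin m × Bool), encT t (x' ++ [a] ++ v) =
          (cdN t ++ lW x') ++ encT (idx a) v := by
        intro v
        rw [List.append_assoc, encT, lW_append, List.singleton_append, lW_cons,
          List.append_assoc]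
      rw [e, e]
      exact this

lemma derive (hm : ∀ a : Bool, SimG L [a] [] [] [a])
    (hr : ∀ r ∈ rulesOf m base, Sim L r.1 r.2)
    (hb : ∀ i : Fin m, [(i, true), (i, false)] ∈ base ∧ [(i, false), (i, true)] ∈ base)
    (R : Set (FreeGroup (Fin m))) (hR : ∀ r ∈ R, ∃ l ∈ base, FreeGroup.mk l = r)
    (w : List (Fin m × Bool)) (hw : FreeGroup.mk w ∈ Subgroup.normalClosure R) :
    ∀ t ≤ 2 * m, Sim L (encT t w) (cdN t) := by
  classical
  let c : Con (FreeMonoid (Fin m × Bool)) := cng (m := m) hm
  let π : FreeMonoid (Fin m × Bool) →* c.Quotient := c.mk'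
  have hπ : ∀ a b : FreeMonoid (Fin m × Bool), π a = π b ↔ c a b := fun a b => c.eq
  have hbase : ∀ l ∈ base, π (FreeMonoid.ofList l) = 1 := by
    intro l hl
    rw [← map_one π, hπ]
    intro t ht
    have := hr _ (mem_rulesOf.mpr ⟨t, ht, l, hl, rfl⟩)
    simp only at this
    rw [← encT_nil (m := m) t] at this
    exact this
  let u : Fin m → c.Quotientˣ := fun i =>
    { val := π (FreeMonoid.ofList [(i, true)])
      inv := π (FreeMonoid.ofList [(i, false)])
      val_inv := by
        rw [← map_mul]
        exact hbase _ (hb i).1
      inv_val := by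
        rw [← map_mul]
        exact hbase _ (hb i).2 }
  have key : ∀ l : List (Fin m × Bool), ((FreeGroup.lift u (FreeGroup.mk l) : c.Quotientˣ) :
      c.Quotient) = π (FreeMonoid.ofList l) := by
    intro l
    induction l with
    | nil =>
      rw [← FreeGroup.one_eq_mk, map_one, Units.val_one]
      exact (map_one π).symm
    | cons x l ih =>
      have e1 : FreeGroup.mk (x :: l) = FreeGroup.mk [x] * FreeGroup.mk l := by
        rw [FreeGroup.mul_mk]; rfl
      have e2 : (FreeMonoid.ofList (x :: l) : FreeMonoid (Fin m × Bool)) =
        FreeMonoid.ofList [x] * FreeMonoid.ofList l := rfl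
      rw [e1, map_mul, Units.val_mul, ih, e2, map_mul]
      congr 1
      obtain ⟨i, b⟩ := x
      cases b
      · have : FreeGroup.lift u (FreeGroup.mk [(i, false)]) = (u i)⁻¹ := by
          simp [FreeGroup.lift_mk]
        rw [this]
        rfl
      · have : FreeGroup.lift u (FreeGroup.mk [(i, true)]) = u i := by
          simp [FreeGroup.lift_mk]
        rw [this]
  have hker : Subgroup.normalClosure R ≤ (FreeGroup.lift u).ker := by
    apply Subgroup.normalClosure_le_normal
    intro r hrR
    obtain ⟨l, hl, rfl⟩ := hR r hrR
    rw [SetLike.mem_coe, MonoidHom.mem_ker]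
    apply Units.ext
    rw [key, hbase l hl]
    rfl
  have h1 := hker hw
  rw [MonoidHom.mem_ker] at h1
  have h2 := key w
  rw [h1, Units.val_one, ← map_one π] at h2
  have h3 := (hπ _ _).mp h2.symm
  intro t ht
  have h4 := h3 t ht
  rw [← encT_nil (m := m) t]
  exact h4

end Derive

section Model

variable {m : ℕ} (G : Type) [Group G] (gv : ℕ → G)

/-- one step of the decoding -/
def dstep (s : Option (G × Option ℕ)) (a : Bool) : Option (G × Option ℕ) :=
  match s, a with
  | some (g, none), true => some (g, some 0)
  | some (g, some k), false => some (g, some (k + 1))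
  | some (g, some (k + 1)), true => some (g * gv k, none)
  | _, _ => none

/-- the decoding -/
def dec (s : Option (G × Option ℕ)) (w : List Bool) : Option (G × Option ℕ) :=
  w.foldl (dstep G gv) s

lemma dec_append (s : Option (G × Option ℕ)) (u v : List Bool) :
    dec G gv s (u ++ v) = dec G gv (dec G gv s u) v := by
  simp [dec]

lemma dec_none (w : List Bool) : dec G gv none w = none := by
  induction w with
  | nil => rfl
  | cons a w ih =>
    have : dec G gv none (a :: w) = dec G gv (dstep G gv none a) w := rfl
    rw [this]
    cases a <;> exact ih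

lemma dec_rep (g : G) (j k : ℕ) :
    dec G gv (some (g, some j)) (List.replicate k false) = some (g, some (j + k)) := by
  induction k generalizing j with
  | zero => rfl
  | succ k ih =>
    rw [List.replicate_succ]
    have : dec G gv (some (g, some j)) (false :: List.replicate k false) =
      dec G gv (some (g, some (j + 1))) (List.replicate k false) := rfl
    rw [this, ih]
    congr 3
    omega

lemma dec_cdN_none (g : G) (k : ℕ) :
    dec G gv (some (g, none)) (cdN k) = some (g * gv k, none) := by
  have h1 : dec G gv (some (g, none)) (cdN k) =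
      dec G gv (some (g, some 0)) (List.replicate (k + 1) false ++ [true]) := rfl
  rw [h1, dec_append, dec_rep, Nat.zero_add]
  rfl

lemma dec_cdN (s : Option (G × Option ℕ)) (k : ℕ) :
    dec G gv s (cdN k) = none ∨ ∃ g, dec G gv s (cdN k) = some (g, none) := by
  rcases s with _ | ⟨g, _ | j⟩
  · left; exact dec_none _ _ _
  · right; exact ⟨_, dec_cdN_none _ _ _ _⟩
  · left
    rcases j with _ | j
    · have : dec G gv (some (g, some 0)) (cdN k) =
        dec G gv none (List.replicate (k + 1) false ++ [true]) := rfl
      rw [this, dec_none]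
    · have : dec G gv (some (g, some (j + 1))) (cdN k) =
        dec G gv none (List.replicate k false ++ [true]) := rfl
      rw [this, dec_none]

lemma dec_lW (g : G) (w : List (Fin m × Bool)) :
    dec G gv (some (g, none)) (lW w) = some (g * (w.map (fun x => gv (idx x))).prod, none) := by
  induction w generalizing g with
  | nil => simp [lW, dec]
  | cons x w ih =>
    rw [lW_cons, encT, dec_append, dec_cdN_none, ih, List.map_cons, List.prod_cons, mul_assoc]

/-- the class of a word -/
def clsG (w : List Bool) : Option (G × Option ℕ) := dec G gv (some (1, none)) w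

lemma clsG_rule (t : ℕ) (l : List (Fin m × Bool)) (hl : (l.map (fun x => gv (idx x))).prod = 1)
    (u v : List Bool) :
    clsG G gv (u ++ encT t l ++ v) = clsG G gv (u ++ cdN t ++ v) := by
  simp only [clsG, dec_append, encT]
  congr 1
  rcases dec_cdN G gv (dec G gv (some (1, none)) u) t with h | ⟨g, h⟩
  · rw [h, dec_none]
  · rw [h, dec_lW, hl, mul_one]

lemma clsG_encT (t : ℕ) (w : List (Fin m × Bool)) :
    clsG G gv (encT t w) = some (gv t * (w.map (fun x => gv (idx x))).prod, none) := by
  rw [clsG, encT, dec_append, dec_cdN_none, dec_lW, one_mul]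

end Model

end Run7.h11.Q
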