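import Pool.Agent.Run7.h11.Q.Charge

set_option autoImplicit false

/-!
The identities in the model.
-/

namespace Run7.h11.Q

section Cent

variable {M K : Type} [LieRing M] [Module F3 M] [CommRing K] [Algebra F3 K] (d : Dat M K)

lemma Dat.beta_zero (x : M) : d.β x 0 = 0 := by
  have h := d.add_right x 0 0
  rw [add_zero] at h
  exact left_eq_add.mp h

lemma Dat.del_zero : d.δ 0 = 0 := by
  have h := d.dadd 0 0
  rw [add_zero] at h
  exact left_eq_add.mp h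

lemma Dat.Dd_zero (v : Dat.VV M K) : d.Dd 0 v = 0 := by
  have h := d.Dd_add 0 0 v
  rw [add_zero] at h
  exact left_eq_add.mp h

lemma Dat.rho_zero (k : K) (v : Dat.VV M K) : d.rho 0 k v = MvPolynomial.C k * v := by
  rw [Dat.rho, d.Dd_zero, d.del_zero, map_zero, zero_add, zero_add]

lemma LL.br_V (a t : LL d) (ha : LL.pm d a = 0) (hk : LL.pk d a = 0) (ht : LL.pm d t = 0) :
    ⁅a, t⁆ = LL.mk d (- MvPolynomial.C (LL.pk d t) * LL.pv d a) 0 0 := by
  apply LL.ext' d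
  · rw [LL.pv_br, ha, hk, ht, d.rho_zero, d.rho_zero, map_zero, zero_mul, zero_sub, LL.pv_mk,
      neg_mul]
  · rw [LL.pm_br, ha, zero_lie, LL.pm_mk]
  · rw [LL.pk_br, ha, ht, d.beta_zero, LL.pk_mk]

lemma LL.pv_br_V (y t : LL d) (ht : LL.pm d t = 0) :
    LL.pm d ⁅y, t⁆ = 0 ∧ LL.pk d ⁅y, t⁆ = 0 := by
  constructor
  · rw [LL.pm_br, ht, lie_zero]
  · rw [LL.pk_br, ht, d.beta_zero]

lemma LL.br_V2 (a t1 t2 : LL d) (ha : LL.pm d a = 0) (hk : LL.pk d a = 0)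
    (h1 : LL.pm d t1 = 0) (h2 : LL.pm d t2 = 0) :
    ⁅⁅a, t1⁆, t2⁆ =
      LL.mk d (MvPolynomial.C (LL.pk d t1 * LL.pk d t2) * LL.pv d a) 0 0 := by
  rw [LL.br_V d a t1 ha hk h1, LL.br_V d _ t2 (LL.pm_mk d _ _ _) (LL.pk_mk d _ _ _) h2,
    LL.pv_mk, map_mul]
  congr 1
  ring

end Cent

section

variable {Q : Type} {cls : List Bool → Q}

/-- the model, as a value -/
lemma Idv_eq (y x1 x2 z : LK Q cls) (e : Hn (LK Q cls)) (f0 : List (Gn (LK Q cls)))
    (w1 w2 : List Bool) (f1 f2 : List (Gn (LK Q cls))) :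
    Idv y x1 x2 z e f0 w1 w2 f1 f2 =
      LL.mk (dK Q cls) (MvPolynomial.C
        (kap z e (al (HH z e) x1 x2 (wd (HH z e) x1 x2 w1 f1)) *
          kap z e (be (HH z e) x1 x2 (wd (HH z e) x1 x2 w2 f2))) *
        LL.pv (dK Q cls) ⁅y, TT (HH z e) f0⁆) 0 0 := by
  have h0 := LL.pv_br_V (dK Q cls) y (TT (HH z e) f0) (pm_TT _ _)
  exact LL.br_V2 (dK Q cls) ⁅y, TT (HH z e) f0⁆
    (TT (HH z e) (al (HH z e) x1 x2 (wd (HH z e) x1 x2 w1 f1)))
    (TT (HH z e) (be (HH z e) x1 x2 (wd (HH z e) x1 x2 w2 f2))) h0.1 h0.2 (pm_TT _ _)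
    (pm_TT _ _)

lemma push_smul (a : Bool) (r : F3) (k : KK Q cls) : push a (r • k) = r • push a k :=
  hsmul _ _ _

lemma f3_odd (D : F3) (k : ℕ) : D ^ (2 * k + 1) = D := by
  induction k with
  | zero => simp
  | succ k ih =>
    have : D ^ (2 * (k + 1) + 1) = D ^ (2 * k + 1) * (D * D) := by ring
    rw [this, ih, f3_cube]

lemma move_K (y x1 x2 z : LK Q cls) (e : Hn (LK Q cls)) (f0 : List (Gn (LK Q cls)))
    (a : Bool) (f1 f2 : List (Gn (LK Q cls))) :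
    Idv y x1 x2 z e f0 [a] [] f1 f2 = Idv y x1 x2 z e f0 [] [a] f1 f2 := by
  rw [Idv_eq, Idv_eq]
  refine congrArg (fun k => LL.mk (dK Q cls) (MvPolynomial.C k * _) 0 0) ?_
  simp only [kap_al, kap_be, kap_wd, pushW_cons, pushW_nil, push_smul, smul_mul_assoc,
    mul_smul_comm, smul_smul, push_move]
  congr 1
  simp only [wtW, List.map_cons, List.map_nil, List.sum_cons, List.sum_nil]
  ring

lemma rule_K (y x1 x2 z : LK Q cls) (e : Hn (LK Q cls)) (f0 : List (Gn (LK Q cls)))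
    (l r : List Bool) (hl : Even (wtW l)) (hr : Even (wtW r))
    (h : ∀ u v : List Bool, cls (u ++ l ++ v) = cls (u ++ r ++ v))
    (f1 f2 : List (Gn (LK Q cls))) :
    Idv y x1 x2 z e f0 [] l f1 f2 = Idv y x1 x2 z e f0 [] r f1 f2 := by
  rw [Idv_eq, Idv_eq]
  refine congrArg (fun k => LL.mk (dK Q cls) (MvPolynomial.C k * _) 0 0) ?_
  obtain ⟨kl, hkl⟩ := hl
  obtain ⟨kr, hkr⟩ := hr
  have key : ∀ (w : List Bool) (k : ℕ), wtW w = k + k →
      kap z e (al (HH z e) x1 x2 (wd (HH z e) x1 x2 [] f1)) *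
        kap z e (be (HH z e) x1 x2 (wd (HH z e) x1 x2 w f2)) =
      dt x1 x2 • (push true (kap z e f1) * push false (pushW w (kap z e f2))) := by
    intro w k hk
    simp only [kap_al, kap_be, kap_wd, pushW_nil, push_smul, smul_mul_assoc,
      mul_smul_comm, smul_smul, hk]
    congr 1
    have h0 : wtW [] = 0 := rfl
    rw [h0]
    have : dt x1 x2 * dt x1 x2 * dt x1 x2 ^ (k + k) * (dt x1 x2 * dt x1 x2 ^ 0) =
        dt x1 x2 ^ (2 * (k + 1) + 1) := by ring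
    rw [this, f3_odd]
  rw [key l kl hkl, key r kr hkr, push_rule l r h]

end

end Run7.h11.Q
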