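import Pool.Agent.Run7.h11.Q.Cen

set_option autoImplicit false

/-!
The cross product algebra over the coefficient ring, extended by two commuting derivations.
-/

namespace Run7.h11.Q

/-- the derivation attached to a pair of scalars -/
noncomputable def dd (c : F3 × F3) (r : RR) : RR := th c * eE r

lemma ED (x : RR) : eE (eD x) = eD (eE x) := eu_comm _ _ _

lemma th_add (c c' : F3 × F3) : th (c + c') = th c + th c' := by
  simp only [th, Prod.fst_add, Prod.snd_add, AddMonoidAlgebra.single_add]; abel

lemma th_zero : th 0 = 0 := by simp [th]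

lemma dd_add_left (c c' : F3 × F3) (r : RR) : dd (c + c') r = dd c r + dd c' r := by
  rw [dd, th_add, add_mul]; rfl

lemma dd_zero_left (r : RR) : dd 0 r = 0 := by rw [dd, th_zero, zero_mul]

lemma dd_add (c : F3 × F3) (r s : RR) : dd c (r + s) = dd c r + dd c s := by
  rw [dd, map_add, mul_add]; rfl

lemma dd_sub (c : F3 × F3) (r s : RR) : dd c (r - s) = dd c r - dd c s := by
  rw [dd, map_sub, mul_sub]; rfl

lemma dd_neg (c : F3 × F3) (r : RR) : dd c (- r) = - dd c r := by
  rw [dd, map_neg, mul_neg]; rfl

lemma dd_zero (c : F3 × F3) : dd c 0 = 0 := by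
  rw [dd, map_zero, mul_zero]

lemma dd_mul (c : F3 × F3) (r s : RR) : dd c (r * s) = dd c r * s + r * dd c s := by
  rw [dd, eu_mul, dd, dd]; ring

lemma dd_comm (c c' : F3 × F3) (r : RR) : dd c (dd c' r) = dd c' (dd c r) := by
  simp only [dd, eu_mul, eE_th]; ring

lemma dd_eE (c : F3 × F3) (r : RR) : eE (dd c r) = dd c r + dd c (eE r) := by
  simp only [dd, eu_mul, eE_th]

lemma dd_eD (c : F3 × F3) (r : RR) : eD (dd c r) = dd c (eD r) := by
  simp only [dd, eu_mul, eD_th, ED]; ring

lemma dd_dd (c : F3 × F3) (r : RR) : eE (dd c (dd c r)) = 0 := by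
  have h3 : (3 : RR) = 0 := three_eq
  simp only [dd, eu_mul, eE_th, map_add, eu_cube]
  linear_combination (th c * th c * eE r + th c * th c * eE (eE r)) * h3

/-- the Lie ring -/
def MM : Type := (F3 × F3) × (RR × RR × RR)

namespace MM

noncomputable instance : AddCommGroup MM := inferInstanceAs (AddCommGroup ((F3 × F3) × (RR × RR × RR)))
noncomputable instance : Module F3 MM := inferInstanceAs (Module F3 ((F3 × F3) × (RR × RR × RR)))

/-- constructor -/
def mk (c : F3 × F3) (x y z : RR) : MM := (c, x, y, z)
/-- the scalar component -/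
def c (a : MM) : F3 × F3 := a.1
/-- first component -/
def x (a : MM) : RR := a.2.1
/-- second component -/
def y (a : MM) : RR := a.2.2.1
/-- third component -/
def z (a : MM) : RR := a.2.2.2

@[simp] lemma c_mk (c' : F3 × F3) (x' y' z' : RR) : c (mk c' x' y' z') = c' := rfl
@[simp] lemma x_mk (c' : F3 × F3) (x' y' z' : RR) : x (mk c' x' y' z') = x' := rfl
@[simp] lemma y_mk (c' : F3 × F3) (x' y' z' : RR) : y (mk c' x' y' z') = y' := rfl
@[simp] lemma z_mk (c' : F3 × F3) (x' y' z' : RR) : z (mk c' x' y' z') = z' := rfl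
@[simp] lemma c_add (a b : MM) : c (a + b) = c a + c b := rfl
@[simp] lemma x_add (a b : MM) : x (a + b) = x a + x b := rfl
@[simp] lemma y_add (a b : MM) : y (a + b) = y a + y b := rfl
@[simp] lemma z_add (a b : MM) : z (a + b) = z a + z b := rfl
@[simp] lemma c_zero : c 0 = 0 := rfl
@[simp] lemma x_zero : x 0 = 0 := rfl
@[simp] lemma y_zero : y 0 = 0 := rfl
@[simp] lemma z_zero : z 0 = 0 := rfl

lemma ext' {a b : MM} (h0 : c a = c b) (h1 : x a = x b) (h2 : y a = y b) (h3 : z a = z b) :
    a = b :=
  Prod.ext h0 (Prod.ext h1 (Prod.ext h2 h3))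

noncomputable instance : Bracket MM MM :=
  ⟨fun a b => mk 0 (dd (c a) (x b) - dd (c b) (x a) + (y a * z b - z a * y b))
    (dd (c a) (y b) - dd (c b) (y a) + (z a * x b - x a * z b))
    (dd (c a) (z b) - dd (c b) (z a) + (x a * y b - y a * x b))⟩

@[simp] lemma c_br (a b : MM) : c ⁅a, b⁆ = 0 := rfl
@[simp] lemma x_br (a b : MM) :
    x ⁅a, b⁆ = dd (c a) (x b) - dd (c b) (x a) + (y a * z b - z a * y b) := rfl
@[simp] lemma y_br (a b : MM) :
    y ⁅a, b⁆ = dd (c a) (y b) - dd (c b) (y a) + (z a * x b - x a * z b) := rfl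
@[simp] lemma z_br (a b : MM) :
    z ⁅a, b⁆ = dd (c a) (z b) - dd (c b) (z a) + (x a * y b - y a * x b) := rfl

noncomputable instance : LieRing MM where
  add_lie a b e := by
    apply ext'
    · simp
    · simp only [x_br, x_add, y_add, z_add, c_add, dd_add_left, dd_add]; ring
    · simp only [y_br, x_add, y_add, z_add, c_add, dd_add_left, dd_add]; ring
    · simp only [z_br, x_add, y_add, z_add, c_add, dd_add_left, dd_add]; ring
  lie_add a b e := by
    apply ext'
    · simp
    · simp only [x_br, x_add, y_add, z_add, c_add, dd_add_left, dd_add]; ring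
    · simp only [y_br, x_add, y_add, z_add, c_add, dd_add_left, dd_add]; ring
    · simp only [z_br, x_add, y_add, z_add, c_add, dd_add_left, dd_add]; ring
  lie_self a := by
    apply ext'
    · simp
    · simp only [x_br, x_zero]; ring
    · simp only [y_br, y_zero]; ring
    · simp only [z_br, z_zero]; ring
  leibniz_lie a b e := by
    apply ext'
    · simp
    · simp only [x_br, y_br, z_br, c_br, x_add, dd_zero_left, dd_add, dd_sub, dd_mul]
      linear_combination dd_comm (c a) (c b) (x e) - dd_comm (c a) (c e) (x b)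
        + dd_comm (c b) (c e) (x a)
    · simp only [x_br, y_br, z_br, c_br, y_add, dd_zero_left, dd_add, dd_sub, dd_mul]
      linear_combination dd_comm (c a) (c b) (y e) - dd_comm (c a) (c e) (y b)
        + dd_comm (c b) (c e) (y a)
    · simp only [x_br, y_br, z_br, c_br, z_add, dd_zero_left, dd_add, dd_sub, dd_mul]
      linear_combination dd_comm (c a) (c b) (z e) - dd_comm (c a) (c e) (z b)
        + dd_comm (c b) (c e) (z a)

/-- the dot product -/
noncomputable def dot (a b : MM) : RR := x a * x b + y a * y b + z a * z b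

/-- the form before the functional -/
noncomputable def om (a b : MM) : RR := x a * eD (x b) + y a * eD (y b) + z a * eD (z b)

/-- the derivation -/
noncomputable def del (a : MM) : MM := mk (c a) (eE (x a)) (eE (y a)) (eE (z a))

@[simp] lemma c_del (a : MM) : c (del a) = c a := rfl
@[simp] lemma x_del (a : MM) : x (del a) = eE (x a) := rfl
@[simp] lemma y_del (a : MM) : y (del a) = eE (y a) := rfl
@[simp] lemma z_del (a : MM) : z (del a) = eE (z a) := rfl

lemma om_coc (a b e : MM) :
    - om ⁅a, b⁆ e + om a ⁅b, e⁆ - om b ⁅a, e⁆ =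
      eD (x e * (y a * z b - z a * y b) + y e * (z a * x b - x a * z b)
        + z e * (x a * y b - y a * x b))
      - dd (c a) (om b e) + dd (c b) (om a e)
      + eD (x b * dd (c e) (x a) + y b * dd (c e) (y a) + z b * dd (c e) (z a))
      - dd (c e) (om a b) := by
  simp only [om, x_br, y_br, z_br, dd, eu_mul, map_add, map_sub, eD_th, ED]
  ring

section Dat

variable {K : Type} [CommRing K] [Algebra F3 K] (ps : RR →+ K) (hE : ∀ r, ps (eE r) = ps r)
  (hD : ∀ r, ps (eD r) = 0)

omit [Algebra F3 K] in
include hE in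
lemma ps_dd (c : F3 × F3) (r : RR) : ps (dd c r) = 0 := by
  have h1 : eE (th c * r) = th c * r + dd c r := by rw [eu_mul, eE_th, dd]
  have h2 := hE (th c * r)
  rw [h1, map_add] at h2
  exact left_eq_add.mp h2.symm

/-- the cocycle -/
noncomputable def dat : Dat MM K where
  β a b := - ps (om a b)
  δ := del
  add_left a b e := by
    rw [← neg_add, ← map_add]; congr 2
    simp only [om, x_add, y_add, z_add]; ring
  add_right a b e := by
    rw [← neg_add, ← map_add]; congr 2
    simp only [om, x_add, y_add, z_add, map_add]; ring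
  alt a := by
    have h3 : (3 : K) = 0 := three_eq
    have h1 : eD (x a * x a + y a * y a + z a * z a) = om a a + om a a := by
      simp only [om, map_add, eu_mul]; ring
    have h2 := hD (x a * x a + y a * y a + z a * z a)
    rw [h1, map_add] at h2
    linear_combination h2 - ps (om a a) * h3
  coc a b e := by
    have h := congrArg ps (om_coc a b e)
    simp only [map_add, map_sub, map_neg, ps_dd ps hE, hD] at h
    linear_combination h
  dadd a b := by
    apply ext' <;> simp only [c_del, x_del, y_del, z_del, c_add, x_add, y_add, z_add, map_add]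
  der a b := by
    apply ext'
    · simp
    · simp only [x_del, x_br, x_add, y_del, z_del, c_del, map_add, map_sub, dd_eE, eu_mul]; ring
    · simp only [y_del, y_br, y_add, x_del, z_del, c_del, map_add, map_sub, dd_eE, eu_mul]; ring
    · simp only [z_del, z_br, z_add, y_del, x_del, c_del, map_add, map_sub, dd_eE, eu_mul]; ring
  wt a b := by
    rw [← neg_add, ← map_add, ← hE (om a b)]; congr 2
    simp only [om, x_del, y_del, z_del, map_add, eu_mul, ED]; ring

end Dat

end MM

end Run7.h11.Q
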