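import Pool.Agent.Run7.h11.Q.Tok

set_option autoImplicit false

/-!
The token lists of the identities are computable.
-/

namespace Run7.h11.Q

/-- token lists -/
abbrev TK := List (ℕ ⊕ ℕ)

lemma pr_br : Primrec₂ (fun s t : TK => (Sig.br s t : TK)) :=
  Primrec.list_append.comp (Primrec.list_append.comp Primrec.fst Primrec.snd)
    (Primrec.const [Sum.inr 3])

lemma pr_ad : Primrec₂ (fun s t : TK => (Sig.ad s t : TK)) :=
  Primrec.list_append.comp (Primrec.list_append.comp Primrec.fst Primrec.snd)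
    (Primrec.const [Sum.inr 2])

lemma pr_ev : Primrec (fun p : At TK => ev p) :=
  pr_br.comp Primrec.fst Primrec.snd

section

variable {α : Type} [Primcodable α]

lemma pr_mop {b c v y : α → At TK} (hb : Primrec b) (hc : Primrec c) (hv : Primrec v)
    (hy : Primrec y) : Primrec (fun a => mop (b a) (c a) (v a) (y a)) := by
  have eb := pr_ev.comp hb
  have ec := pr_ev.comp hc
  have evv := pr_ev.comp hv
  have ey := pr_ev.comp hy
  have t1 := Primrec.pair hb (Primrec.pair ec (pr_br.comp evv ey))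
  have t2 := Primrec.pair hv (Primrec.pair ec (pr_br.comp eb ey))
  have t3 := Primrec.pair hc (Primrec.pair eb (pr_br.comp evv ey))
  have t4 := Primrec.pair hv (Primrec.pair eb (pr_br.comp ec ey))
  have t5 := Primrec.pair (Primrec.pair evv (pr_br.comp ec ey)) hb
  have t6 := Primrec.pair (Primrec.pair evv (pr_br.comp eb ey)) hc
  exact Primrec.list_cons.comp t1 (Primrec.list_cons.comp t2 (Primrec.list_cons.comp t3
    (Primrec.list_cons.comp t4 (Primrec.list_cons.comp t5 (Primrec.list_cons.comp t6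
      (Primrec.const []))))))

lemma pr_mulG {b c : α → At TK} {g : α → Gn TK} (hb : Primrec b) (hc : Primrec c)
    (hg : Primrec g) : Primrec (fun a => mulG (b a) (c a) (g a)) := by
  have h1 := pr_mop hb hc (Primrec.fst.comp hg) (Primrec.fst.comp (Primrec.snd.comp hg))
  have h2 : Primrec₂ (fun (a : α) (p : At TK × At TK) => (p.1, p.2, (g a).2.2)) :=
    Primrec.pair (Primrec.fst.comp Primrec.snd) (Primrec.pair (Primrec.snd.comp Primrec.snd)
      (Primrec.snd.comp (Primrec.snd.comp (hg.comp Primrec.fst))))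
  exact Primrec.list_map h1 h2

lemma pr_mul {s s' : α → List (Gn TK)} (hs : Primrec s) (hs' : Primrec s') :
    Primrec (fun a => mul (s a) (s' a)) := by
  have h0 : Primrec (fun q : (α × Gn TK) × Gn TK =>
      mulG (ev q.1.2.1, ev q.1.2.2.1) q.1.2.2.2 q.2) := by
    have hg : Primrec (fun q : (α × Gn TK) × Gn TK => q.1.2) :=
      Primrec.snd.comp Primrec.fst
    exact pr_mulG (Primrec.pair (pr_ev.comp (Primrec.fst.comp hg))
      (pr_ev.comp (Primrec.fst.comp (Primrec.snd.comp hg))))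
      (Primrec.snd.comp (Primrec.snd.comp hg)) Primrec.snd
  have h1 : Primrec₂ (fun (a : α) (g : Gn TK) => (s' a).flatMap fun g' =>
      mulG (ev g.1, ev g.2.1) g.2.2 g') :=
    Primrec.list_flatMap (hs'.comp Primrec.fst) h0.to₂
  exact Primrec.list_flatMap hs h1

lemma pr_hmul (H : List (Hn TK)) {s' : α → List (Gn TK)} (hs' : Primrec s') :
    Primrec (fun a => hmul H (s' a)) := by
  have h0 : Primrec (fun q : (α × Hn TK) × Gn TK =>
      mulG (ev q.1.2.1, ev q.1.2.2.1) (ev q.1.2.2.2.1, ev q.1.2.2.2.2) q.2) := by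
    have hg : Primrec (fun q : (α × Hn TK) × Gn TK => q.1.2) :=
      Primrec.snd.comp Primrec.fst
    exact pr_mulG (Primrec.pair (pr_ev.comp (Primrec.fst.comp hg))
      (pr_ev.comp (Primrec.fst.comp (Primrec.snd.comp hg))))
      (Primrec.pair (pr_ev.comp (Primrec.fst.comp (Primrec.snd.comp (Primrec.snd.comp hg))))
      (pr_ev.comp (Primrec.snd.comp (Primrec.snd.comp (Primrec.snd.comp hg))))) Primrec.snd
  have h1 : Primrec₂ (fun (a : α) (g : Hn TK) => (s' a).flatMap fun g' =>
      mulG (ev g.1, ev g.2.1) (ev g.2.2.1, ev g.2.2.2) g') :=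
    Primrec.list_flatMap (hs'.comp Primrec.fst) h0.to₂
  exact Primrec.list_flatMap (Primrec.const H) h1

lemma pr_dG (x : TK) {g : α → Gn TK} (hg : Primrec g) : Primrec (fun a => dG x (g a)) := by
  have h1 := Primrec.fst.comp hg
  have h2 := Primrec.fst.comp (Primrec.snd.comp hg)
  have h3 := Primrec.snd.comp (Primrec.snd.comp hg)
  have d1 := Primrec.pair (pr_ev.comp h1) (Primrec.const x)
  have d2 := Primrec.pair (pr_ev.comp h2) (Primrec.const x)
  have d3 := Primrec.pair (pr_ev.comp h3) (Primrec.const x)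
  exact Primrec.list_cons.comp (Primrec.pair d1 (Primrec.pair h2 h3))
    (Primrec.list_cons.comp (Primrec.pair h1 (Primrec.pair d2 h3))
    (Primrec.list_cons.comp (Primrec.pair h1 (Primrec.pair h2 d3)) (Primrec.const [])))

lemma pr_dS (x : TK) {s : α → List (Gn TK)} (hs : Primrec s) :
    Primrec (fun a => dS x (s a)) := by
  have h1 : Primrec₂ (fun (_ : α) (g : Gn TK) => dG x g) := pr_dG x Primrec.snd
  exact Primrec.list_flatMap hs h1

lemma pr_XX (H : List (Hn TK)) (x : TK) {f : α → List (Gn TK)} (hf : Primrec f) :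
    Primrec (fun a => XX H x (f a)) :=
  pr_mul hf (pr_mul hf (pr_hmul H (pr_hmul H (pr_dS x hf))))

lemma pr_neg {f : α → List (Gn TK)} (hf : Primrec f) : Primrec (fun a => neg (f a)) := by
  have h1 : Primrec₂ (fun (_ : α) (g : Gn TK) => ((g.2.1, g.1, g.2.2) : Gn TK)) :=
    Primrec.pair (Primrec.fst.comp (Primrec.snd.comp Primrec.snd))
      (Primrec.pair (Primrec.fst.comp Primrec.snd)
        (Primrec.snd.comp (Primrec.snd.comp Primrec.snd)))
  exact Primrec.list_map hf h1

lemma pr_al (H : List (Hn TK)) (x1 x2 : TK) {f : α → List (Gn TK)} (hf : Primrec f) :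
    Primrec (fun a => al H x1 x2 (f a)) :=
  Primrec.list_append.comp (pr_XX H x1 (pr_XX H x2 hf)) (pr_neg (pr_XX H x2 (pr_XX H x1 hf)))

lemma pr_be (H : List (Hn TK)) (x1 x2 : TK) {f : α → List (Gn TK)} (hf : Primrec f) :
    Primrec (fun a => be H x1 x2 (f a)) :=
  Primrec.list_append.comp (pr_XX H x1 (pr_al H x1 x2 (pr_XX H x2 hf)))
    (pr_neg (pr_XX H x2 (pr_al H x1 x2 (pr_XX H x1 hf))))

lemma pr_wd (H : List (Hn TK)) (x1 x2 : TK) (f : List (Gn TK)) :
    Primrec (fun w : List Bool => wd H x1 x2 w f) := by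
  have h1 : Primrec₂ (fun (_ : List Bool) (q : Bool × List (Gn TK)) => lt H x1 x2 q.1 q.2) :=
    Primrec.cond (Primrec.fst.comp Primrec.snd)
      (pr_al H x1 x2 (Primrec.snd.comp Primrec.snd))
      (pr_be H x1 x2 (Primrec.snd.comp Primrec.snd))
  exact Primrec.list_foldr Primrec.id (Primrec.const f) h1

lemma pr_actP (v y : At TK) {f : α → List (Gn TK)} (hf : Primrec f) :
    Primrec (fun a => actP (f a) v y) := by
  have h1 : Primrec₂ (fun (_ : α) (g : Gn TK) => mop (ev g.1, ev g.2.1) g.2.2 v y) :=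
    pr_mop (Primrec.pair (pr_ev.comp (Primrec.fst.comp Primrec.snd))
      (pr_ev.comp (Primrec.fst.comp (Primrec.snd.comp Primrec.snd))))
      (Primrec.snd.comp (Primrec.snd.comp Primrec.snd)) (Primrec.const v) (Primrec.const y)
  exact Primrec.list_flatMap hf h1

lemma pr_sumP {P : α → List (At TK × At TK)} (hP : Primrec P) :
    Primrec (fun a => sumP (P a)) := by
  have h1 : Primrec₂ (fun (_ : α) (q : (At TK × At TK) × TK) =>
      (Sig.ad (Sig.br (ev q.1.1) (ev q.1.2)) q.2 : TK)) := by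
    have hq : Primrec (fun q : α × (At TK × At TK) × TK => q.2.1) :=
      Primrec.fst.comp Primrec.snd
    exact pr_ad.comp (pr_br.comp (pr_ev.comp (Primrec.fst.comp hq))
      (pr_ev.comp (Primrec.snd.comp hq))) (Primrec.snd.comp Primrec.snd)
  exact Primrec.list_foldr hP (Primrec.const Sig.ze) h1

lemma pr_T1 (e : Hn TK) {f : α → List (Gn TK)} (hf : Primrec f) :
    Primrec (fun a => T1 (f a) e) :=
  pr_ad.comp
    (pr_br.comp (pr_sumP (pr_actP e.1 e.2.1 hf))
      (Primrec.const (Sig.br (ev e.2.2.1) (ev e.2.2.2))))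
    (pr_br.comp (pr_sumP (pr_actP e.2.2.1 e.2.2.2 hf))
      (Primrec.const (Sig.br (ev e.1) (ev e.2.1))))

lemma pr_TT (H : List (Hn TK)) {f : α → List (Gn TK)} (hf : Primrec f) :
    Primrec (fun a => TT H (f a)) := by
  induction H with
  | nil => exact Primrec.const Sig.ze
  | cons e H ih => exact pr_ad.comp (pr_T1 e hf) ih

end

lemma pr_Idv (y x1 x2 z : TK) (e : Hn TK) (f0 : List (Gn TK)) (w1 : List Bool)
    (f1 f2 : List (Gn TK)) : Primrec (fun w2 => Idv y x1 x2 z e f0 w1 w2 f1 f2) :=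
  pr_br.comp (Primrec.const _) (pr_TT _ (pr_be _ _ _ (pr_wd _ _ _ _)))

lemma pr_IdX : Primrec (fun w : List Bool => Tm.comp (IdX Tm.v [] w 1 1)) := by
  have h : (fun w : List Bool => Tm.comp (IdX Tm.v [] w 1 1)) =
      (fun w : List Bool => IdX (fun n => Tm.comp (Tm.v n)) [] w 1 1) := by
    funext w
    exact IdX_map comp_hom _ _ _ _ _
  rw [h]
  exact pr_Idv _ _ _ _ _ _ _ _ _

end Run7.h11.Q
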