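import Mathlib

set_option autoImplicit false

/-!
The commutative ring of coefficients, with its Euler derivations, and the key identity
`f² · d f = (d f)³ + d (d (f² · d f))` in characteristic three when `d³ = d`.
-/

namespace Run7.h11.Q

/-- the field with three elements -/
abbrev F3 := ZMod 3

lemma three_eq {A : Type} [CommRing A] [Algebra F3 A] : (3 : A) = 0 := by
  have : ((3 : F3) : F3) = 0 := by decide
  have h2 := congrArg (algebraMap F3 A) this
  rw [map_zero, map_ofNat] at h2
  exact h2

/-- an additive map out of a monoid algebra -/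
noncomputable def linR {Γ A : Type} [AddCommMonoid A] (φ : Γ → F3 →+ A) :
    AddMonoidAlgebra F3 Γ →+ A :=
  (Finsupp.liftAddHom φ).comp AddMonoidAlgebra.coeffAddEquiv.toAddMonoidHom

@[simp] lemma linR_single {Γ A : Type} [AddCommMonoid A] (φ : Γ → F3 →+ A) (m : Γ) (r : F3) :
    linR φ (AddMonoidAlgebra.single m r) = φ m r := by
  simp [linR]

/-- exponents -/
abbrev Ex := ℕ × ℕ × ℕ

/-- the coefficient ring -/
abbrev RR := AddMonoidAlgebra F3 Ex

/-- the Euler derivation of a weight -/
noncomputable def eu (w : Ex →+ F3) : RR →+ RR :=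
  linR (fun m => (AddMonoidAlgebra.singleAddHom m).comp (AddMonoidHom.mulLeft (w m)))

@[simp] lemma eu_single (w : Ex →+ F3) (m : Ex) (r : F3) :
    eu w (AddMonoidAlgebra.single m r) = AddMonoidAlgebra.single m (w m * r) := by
  simp [eu]

lemma eu_mul (w : Ex →+ F3) (x y : RR) : eu w (x * y) = eu w x * y + x * eu w y := by
  induction x using AddMonoidAlgebra.induction_linear with
  | zero => simp
  | add x x' hx hx' => rw [add_mul, map_add, hx, hx', map_add]; ring
  | single m r =>
    induction y using AddMonoidAlgebra.induction_linear with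
    | zero => simp
    | add y y' hy hy' => rw [mul_add, map_add, hy, hy', map_add]; ring
    | single m' r' =>
      simp only [AddMonoidAlgebra.single_mul_single, eu_single, map_add,
        ← AddMonoidAlgebra.single_add]
      congr 1
      ring

lemma eu_comm (w w' : Ex →+ F3) (x : RR) : eu w (eu w' x) = eu w' (eu w x) := by
  induction x using AddMonoidAlgebra.induction_linear with
  | zero => simp
  | add x x' hx hx' => simp only [map_add, hx, hx']
  | single m r =>
    simp only [eu_single]
    congr 1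
    ring

lemma f3_cube (a : F3) : a * (a * a) = a := by
  revert a; decide

lemma eu_cube (w : Ex →+ F3) (x : RR) : eu w (eu w (eu w x)) = eu w x := by
  induction x using AddMonoidAlgebra.induction_linear with
  | zero => simp
  | add x x' hx hx' => simp only [map_add, hx, hx']
  | single m r =>
    simp only [eu_single]
    congr 1
    rw [← mul_assoc, ← mul_assoc, mul_assoc (w m), f3_cube]

/-- the key identity -/
lemma eu_key (w : Ex →+ F3) (f : RR) :
    f * f * eu w f = eu w f ^ 3 + eu w (eu w (f * f * eu w f)) := by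
  have h3 : (3 : RR) = 0 := three_eq
  have hc := eu_cube w f
  simp only [eu_mul, map_add, hc]
  linear_combination (- eu w f ^ 3 - 2 * f * eu w f * eu w (eu w f)) * h3

lemma eu_pow_three (w : Ex →+ F3) (f : RR) : eu w (f ^ 3) = 0 := by
  have h3 : (3 : RR) = 0 := three_eq
  rw [pow_succ, pow_two]
  simp only [eu_mul]
  linear_combination (f ^ 2 * eu w f) * h3

/-- the total degree in the first two variables -/
def wE : Ex →+ F3 where
  toFun m := (m.1 : F3) + (m.2.1 : F3)
  map_zero' := by simp
  map_add' := by intro x y; simp; ring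

/-- the degree in the last variable -/
def wD : Ex →+ F3 where
  toFun m := (m.2.2 : F3)
  map_zero' := by simp
  map_add' := by intro x y; simp

/-- the first Euler derivation -/
noncomputable abbrev eE : RR →+ RR := eu wE

/-- the second Euler derivation -/
noncomputable abbrev eD : RR →+ RR := eu wD

section Psi

variable {Z : Type} [AddCommGroup Z] [Module F3 Z] (a1 a2 : Z →+ Z) (z0 z1 : Z)

/-- the values of the functional on the monomials -/
def psi0 (m : Ex) : Z :=
  if m.1 % 3 = 1 ∧ m.2.1 % 3 = 0 ∧ m.2.2 % 3 = 0 then a1 (psi0 (m.1 / 3, m.2.1 / 3, m.2.2 / 3))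
  else if m.1 % 3 = 0 ∧ m.2.1 % 3 = 1 ∧ m.2.2 % 3 = 0 then
    a2 (psi0 (m.1 / 3, m.2.1 / 3, m.2.2 / 3))
  else if m = (5, 2, 3) then z0
  else if m = (8, 2, 3) then z1
  else 0
termination_by m.1 + m.2.1
decreasing_by
  all_goals omega

/-- the functional -/
noncomputable def Psi : RR →+ Z :=
  linR (fun m => (LinearMap.toSpanSingleton F3 Z (psi0 a1 a2 z0 z1 m)).toAddMonoidHom)

@[simp] lemma Psi_single (m : Ex) (r : F3) :
    Psi a1 a2 z0 z1 (AddMonoidAlgebra.single m r) = r • psi0 a1 a2 z0 z1 m := by
  simp [Psi]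

lemma natCast_mod3 (n : ℕ) : (n : F3) = ((n % 3 : ℕ) : F3) := by
  rw [ZMod.natCast_mod]

omit [Module F3 Z] in
lemma psi0_weight (m : Ex) :
    (wE m = 1 ∧ wD m = 0) ∨ psi0 a1 a2 z0 z1 m = 0 := by
  obtain ⟨a, b, c⟩ := m
  rw [psi0]
  split_ifs with h1 h2 h3 h4
  · left
    simp only [wE, wD, AddMonoidHom.coe_mk, ZeroHom.coe_mk]
    simp only at h1
    rw [natCast_mod3 a, natCast_mod3 b, natCast_mod3 c, h1.1, h1.2.1, h1.2.2]
    decide
  · left
    simp only [wE, wD, AddMonoidHom.coe_mk, ZeroHom.coe_mk]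
    simp only at h2
    rw [natCast_mod3 a, natCast_mod3 b, natCast_mod3 c, h2.1, h2.2.1, h2.2.2]
    decide
  · left
    simp only [Prod.mk.injEq] at h3
    obtain ⟨rfl, rfl, rfl⟩ := h3
    decide
  · left
    simp only [Prod.mk.injEq] at h4
    obtain ⟨rfl, rfl, rfl⟩ := h4
    decide
  · right; rfl

lemma Psi_eE (x : RR) : Psi a1 a2 z0 z1 (eE x) = Psi a1 a2 z0 z1 x := by
  induction x using AddMonoidAlgebra.induction_linear with
  | zero => simp
  | add x x' hx hx' => simp only [map_add, hx, hx']
  | single m r =>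
    simp only [eu_single, Psi_single]
    rcases psi0_weight a1 a2 z0 z1 m with h | h
    · rw [h.1, one_mul]
    · rw [h, smul_zero, smul_zero]

lemma Psi_eD (x : RR) : Psi a1 a2 z0 z1 (eD x) = 0 := by
  induction x using AddMonoidAlgebra.induction_linear with
  | zero => simp
  | add x x' hx hx' => simp only [map_add, hx, hx', add_zero]
  | single m r =>
    simp only [eu_single, Psi_single]
    rcases psi0_weight a1 a2 z0 z1 m with h | h
    · rw [h.2, zero_mul, zero_smul]
    · rw [h, smul_zero]

/-- a linear form in the first two variables -/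
noncomputable def th (c : F3 × F3) : RR :=
  AddMonoidAlgebra.single (1, 0, 0) c.1 + AddMonoidAlgebra.single (0, 1, 0) c.2

/-- the corresponding combination of the operators -/
def act (c : F3 × F3) (z : Z) : Z := c.1 • a1 z + c.2 • a2 z

lemma f3_pow3 (r : F3) : r ^ 3 = r := by
  revert r; decide

lemma add_cube {A : Type} [CommRing A] [Algebra F3 A] (x y : A) :
    (x + y) ^ 3 = x ^ 3 + y ^ 3 := by
  have h3 : (3 : A) = 0 := three_eq
  linear_combination (x ^ 2 * y + x * y ^ 2) * h3

lemma Psi_cube1 (G : RR) (c : F3) :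
    Psi a1 a2 z0 z1 (AddMonoidAlgebra.single (1, 0, 0) c * G ^ 3) =
      c • a1 (Psi a1 a2 z0 z1 G) := by
  induction G using AddMonoidAlgebra.induction_linear with
  | zero => simp
  | add x x' hx hx' => rw [add_cube, mul_add, map_add, map_add, map_add, smul_add, hx, hx']
  | single m r =>
    obtain ⟨a, b, k⟩ := m
    rw [AddMonoidAlgebra.single_pow, f3_pow3, AddMonoidAlgebra.single_mul_single, Psi_single,
      Psi_single, psi0]
    have h1 : (((1, 0, 0) : Ex) + 3 • ((a, b, k) : Ex)) = (1 + 3 * a, 3 * b, 3 * k) := by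
      simp
    rw [h1]
    have h2 : (1 + 3 * a) % 3 = 1 ∧ (3 * b) % 3 = 0 ∧ (3 * k) % 3 = 0 := by omega
    have h3 : (1 + 3 * a) / 3 = a := by omega
    have h4 : 3 * b / 3 = b := by omega
    have h5 : 3 * k / 3 = k := by omega
    simp only [h2, and_self, if_true, h3, h4, h5]
    rw [mul_smul]
    congr 1
    exact ((a1.toZModLinearMap 3).map_smul r _).symm

lemma Psi_cube2 (G : RR) (c : F3) :
    Psi a1 a2 z0 z1 (AddMonoidAlgebra.single (0, 1, 0) c * G ^ 3) =
      c • a2 (Psi a1 a2 z0 z1 G) := by
  induction G using AddMonoidAlgebra.induction_linear with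
  | zero => simp
  | add x x' hx hx' => rw [add_cube, mul_add, map_add, map_add, map_add, smul_add, hx, hx']
  | single m r =>
    obtain ⟨a, b, k⟩ := m
    rw [AddMonoidAlgebra.single_pow, f3_pow3, AddMonoidAlgebra.single_mul_single, Psi_single,
      Psi_single, psi0]
    have h1 : (((0, 1, 0) : Ex) + 3 • ((a, b, k) : Ex)) = (3 * a, 1 + 3 * b, 3 * k) := by
      simp
    rw [h1]
    have h2 : (3 * a) % 3 = 0 ∧ (1 + 3 * b) % 3 = 1 ∧ (3 * k) % 3 = 0 := by omega
    have h3 : (1 + 3 * b) / 3 = b := by omega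
    have h4 : 3 * a / 3 = a := by omega
    have h5 : 3 * k / 3 = k := by omega
    simp only [h2, and_self, if_true, h3, h4, h5, zero_ne_one, false_and, if_false]
    rw [mul_smul]
    congr 1
    exact ((a2.toZModLinearMap 3).map_smul r _).symm

lemma Psi_cube (G : RR) (c : F3 × F3) :
    Psi a1 a2 z0 z1 (th c * G ^ 3) = act a1 a2 c (Psi a1 a2 z0 z1 G) := by
  rw [th, add_mul, map_add, Psi_cube1, Psi_cube2, act]

lemma eE_th (c : F3 × F3) : eE (th c) = th c := by
  simp only [th, map_add, eu_single]
  congr 2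
  · have : wE (1, 0, 0) = 1 := by decide
    rw [this, one_mul]
  · have : wE (0, 1, 0) = 1 := by decide
    rw [this, one_mul]

lemma eD_th (c : F3 × F3) : eD (th c) = 0 := by
  simp only [th, map_add, eu_single]
  have h1 : wD (1, 0, 0) = 0 := by decide
  have h2 : wD (0, 1, 0) = 0 := by decide
  rw [h1, h2, zero_mul, zero_mul, AddMonoidAlgebra.single_zero, AddMonoidAlgebra.single_zero,
    add_zero]

/-- the main evaluation -/
lemma Psi_main (c : F3 × F3) (f h : RR) (hh : eE h = 0) :
    Psi a1 a2 z0 z1 ((f * (f * (h * (h * (th c * eE f))))) * eD h) =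
      act a1 a2 c (Psi a1 a2 z0 z1 (f * eD h)) := by
  have hP := eu_key wE f
  have hQ := eu_key wD h
  set P := f * f * eE f with hPdef
  set Q := h * h * eD h with hQdef
  have hdh : eE (eD h) = 0 := by rw [eu_comm, hh, map_zero]
  have hEQ : eE Q = 0 := by rw [hQdef]; simp only [eu_mul, hh, hdh]; ring
  have e1 : (f * (f * (h * (h * (th c * eE f))))) * eD h = th c * P * Q := by
    rw [hPdef, hQdef]; ring
  have e2 : th c * P * Q = th c * eE f ^ 3 * Q + th c * Q * eE (eE P) := by
    linear_combination th c * Q * hP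
  have e3 : Psi a1 a2 z0 z1 (th c * Q * eE (eE P)) = 0 := by
    have h1 : eE (th c * Q * eE P) = th c * Q * eE P + th c * Q * eE (eE P) := by
      simp only [eu_mul, hEQ, eE_th]; ring
    have h2 := Psi_eE a1 a2 z0 z1 (th c * Q * eE P)
    rw [h1, map_add] at h2
    exact left_eq_add.mp h2.symm
  have e4 : th c * eE f ^ 3 * Q = th c * (eE f * eD h) ^ 3 + th c * eE f ^ 3 * eD (eD Q) := by
    linear_combination th c * eE f ^ 3 * hQ
  have e5 : Psi a1 a2 z0 z1 (th c * eE f ^ 3 * eD (eD Q)) = 0 := by
    have h1 : eD (th c * eE f ^ 3 * eD Q) = th c * eE f ^ 3 * eD (eD Q) := by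
      rw [eu_mul, eu_mul, eD_th, eu_pow_three]; ring
    rw [← h1, Psi_eD]
  have e6 : eE (f * eD h) = eE f * eD h := by
    rw [eu_mul, hdh]; ring
  rw [e1, e2, map_add, e3, add_zero, e4, map_add, e5, add_zero, Psi_cube, ← e6, Psi_eE]

end Psi

end Run7.h11.Q
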