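import Pool.Agent.Run7.h11.Q.Deg

set_option autoImplicit false

/-!
Terms and token lists, and the finite lists of identities.
-/

namespace Run7.h11.Q

/-- one token acts on a stack -/
def stp {L : Type} [LieRing L] (v : ℕ → L) (st : List L) (tok : ℕ ⊕ ℕ) : List L :=
  Sum.elim (fun n => v n :: st)
    (fun k => if k = 0 then (0 : L) :: st
      else if k = 1 then (-(st.headD 0)) :: st.tail
      else if k = 2 then (st.tail.headD 0 + st.headD 0) :: st.tail.tail
      else ⁅st.tail.headD 0, st.headD 0⁆ :: st.tail.tail) tok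

/-- the value of a token list -/
def evl {L : Type} [LieRing L] (v : ℕ → L) (w : List (ℕ ⊕ ℕ)) : L :=
  (List.foldl (stp v) [] w).headD 0

/-- an identity holds -/
def Hld (L : Type) [LieRing L] (e : List (ℕ ⊕ ℕ) × List (ℕ ⊕ ℕ)) : Prop :=
  ∀ v : ℕ → L, evl v e.1 = evl v e.2

/-- terms -/
inductive Tm : Type
  | v : ℕ → Tm
  | z : Tm
  | ad : Tm → Tm → Tm
  | br : Tm → Tm → Tm

instance : Sig Tm := ⟨Tm.br, Tm.ad, Tm.z⟩

instance sigTok : Sig (List (ℕ ⊕ ℕ)) :=
  ⟨fun s t => (s ++ t) ++ [Sum.inr 3], fun s t => (s ++ t) ++ [Sum.inr 2], [Sum.inr 0]⟩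

/-- the code of a term -/
def Tm.comp : Tm → List (ℕ ⊕ ℕ)
  | Tm.v n => [Sum.inl n]
  | Tm.z => [Sum.inr 0]
  | Tm.ad s t => (s.comp ++ t.comp) ++ [Sum.inr 2]
  | Tm.br s t => (s.comp ++ t.comp) ++ [Sum.inr 3]

lemma comp_hom : SHom Tm.comp := ⟨fun _ _ => rfl, fun _ _ => rfl, rfl⟩

/-- the value of a term -/
def Tm.val {L : Type} [LieRing L] (e : ℕ → L) : Tm → L
  | Tm.v n => e n
  | Tm.z => 0
  | Tm.ad s t => s.val e + t.val e
  | Tm.br s t => ⁅s.val e, t.val e⁆

lemma val_hom {L : Type} [LieRing L] (e : ℕ → L) : SHom (Tm.val e) :=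
  ⟨fun _ _ => rfl, fun _ _ => rfl, rfl⟩

lemma foldl_comp {L : Type} [LieRing L] (e : ℕ → L) (t : Tm) (st : List L) :
    List.foldl (stp e) st t.comp = t.val e :: st := by
  induction t generalizing st with
  | v n => simp [Tm.comp, Tm.val, stp]
  | z => simp [Tm.comp, Tm.val, stp]
  | ad s t ihs iht =>
    rw [Tm.comp, List.foldl_append, List.foldl_append, ihs, iht]
    simp [Tm.val, stp]
  | br s t ihs iht =>
    rw [Tm.comp, List.foldl_append, List.foldl_append, ihs, iht]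
    simp [Tm.val, stp]

lemma evl_comp {L : Type} [LieRing L] (e : ℕ → L) (t : Tm) : evl e t.comp = t.val e := by
  rw [evl, foldl_comp, List.headD_cons]

/-- generic generator -/
def gV {X : Type} (e : ℕ → X) (n : ℕ) : Gn X :=
  ((e n, e (n + 1)), (e (n + 2), e (n + 3)), (e (n + 4), e (n + 5)))

/-- generic generator of the second kind -/
def hV {X : Type} (e : ℕ → X) (n : ℕ) : Hn X :=
  ((e n, e (n + 1)), (e (n + 2), e (n + 3)), (e (n + 4), e (n + 5)), (e (n + 6), e (n + 7)))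

/-- generic formal scalars -/
def lV {X : Type} (e : ℕ → X) (b k : ℕ) : List (Gn X) :=
  (List.range k).map (fun i => gV e (b + 12 * i))

/-- the generic side of an identity -/
def IdX {X : Type} [Sig X] (e : ℕ → X) (w1 w2 : List Bool) (k1 k2 : ℕ) : X :=
  Idv (e 0) (e 1) (e 2) (e 3) (hV e 4) [gV e 12] w1 w2 (lV e 18 k1) (lV e 24 k2)

lemma IdX_map {X Y : Type} [Sig X] [Sig Y] {φ : X → Y} (h : SHom φ) (e : ℕ → X)
    (w1 w2 : List Bool) (k1 k2 : ℕ) :
    φ (IdX e w1 w2 k1 k2) = IdX (fun n => φ (e n)) w1 w2 k1 k2 := by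
  rw [IdX, Idv_map h]
  simp only [lV, List.map_map, List.map_cons, List.map_nil]
  rfl

lemma evl_IdX {L : Type} [LieRing L] (e : ℕ → L) (w1 w2 : List Bool) (k1 k2 : ℕ) :
    evl e (Tm.comp (IdX Tm.v w1 w2 k1 k2)) = IdX e w1 w2 k1 k2 := by
  rw [evl_comp, IdX_map (val_hom e)]
  rfl

/-- the entries of a generator -/
def ent {X : Type} (g : Gn X) (j : ℕ) : X :=
  if j = 0 then g.1.1 else if j = 1 then g.1.2 else if j = 2 then g.2.1.1
  else if j = 3 then g.2.1.2 else if j = 4 then g.2.2.1 else g.2.2.2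

/-- an assignment with given values -/
def asgn {L : Type} [LieRing L] (y x1 x2 z : L) (e : Hn L) (f0 : Gn L)
    (f1 f2 : List (Gn L)) (n : ℕ) : L :=
  if n < 18 then
    [y, x1, x2, z, e.1.1, e.1.2, e.2.1.1, e.2.1.2, e.2.2.1.1, e.2.2.1.2, e.2.2.2.1, e.2.2.2.2,
      f0.1.1, f0.1.2, f0.2.1.1, f0.2.1.2, f0.2.2.1, f0.2.2.2].getD n 0
  else if (n - 18) % 12 < 6 then ent (f1.getD ((n - 18) / 12) f0) ((n - 18) % 12)
  else ent (f2.getD ((n - 18) / 12) f0) ((n - 18) % 12 - 6)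

section

variable {L : Type} [LieRing L] (y x1 x2 z : L) (e : Hn L) (f0 : Gn L) (f1 f2 : List (Gn L))

lemma asgn1 (i j : ℕ) (hj : j < 6) :
    asgn y x1 x2 z e f0 f1 f2 (18 + 12 * i + j) = ent (f1.getD i f0) j := by
  have h1 : ¬ (18 + 12 * i + j < 18) := by omega
  have h2 : (18 + 12 * i + j - 18) % 12 = j := by omega
  have h3 : (18 + 12 * i + j - 18) / 12 = i := by omega
  rw [asgn, if_neg h1, h2, if_pos hj, h3]

lemma asgn2 (i j : ℕ) (hj : j < 6) :
    asgn y x1 x2 z e f0 f1 f2 (24 + 12 * i + j) = ent (f2.getD i f0) j := by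
  have h1 : ¬ (24 + 12 * i + j < 18) := by omega
  have h2 : (24 + 12 * i + j - 18) % 12 = 6 + j := by omega
  have h3 : (24 + 12 * i + j - 18) / 12 = i := by omega
  have h4 : ¬ (6 + j < 6) := by omega
  rw [asgn, if_neg h1, h2, if_neg h4, h3, Nat.add_sub_cancel_left]

lemma gV_ent {X : Type} (a : ℕ → X) (n : ℕ) (g : Gn X) (h : ∀ j < 6, a (n + j) = ent g j) :
    gV a n = g := by
  have h0 := h 0 (by norm_num)
  have h1 := h 1 (by norm_num)
  have h2 := h 2 (by norm_num)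
  have h3 := h 3 (by norm_num)
  have h4 := h 4 (by norm_num)
  have h5 := h 5 (by norm_num)
  simp only [ent] at h0 h1 h2 h3 h4 h5
  simp only [Nat.add_zero, if_true] at h0
  rw [gV, h0, h1, h2, h3, h4, h5]
  rfl

lemma map_getD {X : Type} (l : List X) (x0 : X) :
    (List.range l.length).map (fun i => l.getD i x0) = l := by
  apply List.ext_getElem
  · simp
  · intro i h1 h2
    simp only [List.getElem_map, List.getElem_range]
    rw [List.getD_eq_getElem _ _ h2]

lemma IdX_asgn (w1 w2 : List Bool) :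
    IdX (asgn y x1 x2 z e f0 f1 f2) w1 w2 f1.length f2.length =
      Idv y x1 x2 z e [f0] w1 w2 f1 f2 := by
  have h1 : lV (asgn y x1 x2 z e f0 f1 f2) 18 f1.length = f1 := by
    conv_rhs => rw [← map_getD f1 f0]
    apply List.map_congr_left
    intro i _
    exact gV_ent _ _ _ (fun j hj => asgn1 _ _ _ _ _ _ _ _ i j hj)
  have h2 : lV (asgn y x1 x2 z e f0 f1 f2) 24 f2.length = f2 := by
    conv_rhs => rw [← map_getD f2 f0]
    apply List.map_congr_left
    intro i _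
    exact gV_ent _ _ _ (fun j hj => asgn2 _ _ _ _ _ _ _ _ i j hj)
  rw [IdX, h1, h2]
  rfl

end

/-- the identities for a pair of sides, for up to `d` generators -/
def ids (w1 w2 w1' w2' : List Bool) (d : ℕ) : List (List (ℕ ⊕ ℕ) × List (ℕ ⊕ ℕ)) :=
  (List.range (d + 1)).flatMap fun k1 => (List.range (d + 1)).map fun k2 =>
    (Tm.comp (IdX Tm.v w1 w2 k1 k2), Tm.comp (IdX Tm.v w1' w2' k1 k2))

lemma mem_ids {w1 w2 w1' w2' : List Bool} {d : ℕ} {p : List (ℕ ⊕ ℕ) × List (ℕ ⊕ ℕ)} :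
    p ∈ ids w1 w2 w1' w2' d ↔ ∃ k1 ≤ d, ∃ k2 ≤ d,
      (Tm.comp (IdX Tm.v w1 w2 k1 k2), Tm.comp (IdX Tm.v w1' w2' k1 k2)) = p := by
  simp only [ids, List.mem_flatMap, List.mem_map, List.mem_range, Nat.lt_succ_iff]

/-- the identity with arbitrary formal scalars holds -/
def SimG (L : Type) [LieRing L] (w1 w2 w1' w2' : List Bool) : Prop :=
  ∀ (y x1 x2 z : L) (e : Hn L) (f0 : Gn L) (f1 f2 : List (Gn L)),
    Idv y x1 x2 z e [f0] w1 w2 f1 f2 = Idv y x1 x2 z e [f0] w1' w2' f1 f2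

lemma SimG_of_ids {L : Type} [LieRing L] {w1 w2 w1' w2' : List Bool}
    (h : ∀ p ∈ ids w1 w2 w1' w2' (dgb w1 w2 w1' w2'), Hld L p) : SimG L w1 w2 w1' w2' := by
  intro y x1 x2 z e f0
  apply Idv_ext y x1 x2 z e [f0] w1 w2 w1' w2' (dgb w1 w2 w1' w2') (le_refl _)
  intro f1 f2 h1 h2
  have := h _ (mem_ids.mpr ⟨f1.length, h1, f2.length, h2, rfl⟩)
    (asgn y x1 x2 z e f0 f1 f2)
  rw [evl_IdX, evl_IdX, IdX_asgn, IdX_asgn] at this
  exact this

lemma ids_of_SimG {L : Type} [LieRing L] {w1 w2 w1' w2' : List Bool} {d : ℕ}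
    (h : SimG L w1 w2 w1' w2') : ∀ p ∈ ids w1 w2 w1' w2' d, Hld L p := by
  intro p hp
  obtain ⟨k1, -, k2, -, rfl⟩ := mem_ids.mp hp
  intro v
  show evl v _ = evl v _
  rw [evl_IdX, evl_IdX]
  exact h _ _ _ _ _ _ _ _

/-- the finite list of identities of a list of rules -/
def EQ (rules : List (List Bool × List Bool)) : List (List (ℕ ⊕ ℕ) × List (ℕ ⊕ ℕ)) :=
  ids [true] [] [] [true] (dgb [true] [] [] [true]) ++
  (ids [false] [] [] [false] (dgb [false] [] [] [false]) ++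
  rules.flatMap fun r => ids [] r.1 [] r.2 (dgb [] r.1 [] r.2))

lemma EQ_iff {L : Type} [LieRing L] (rules : List (List Bool × List Bool)) :
    (∀ p ∈ EQ rules, Hld L p) ↔ (∀ a : Bool, SimG L [a] [] [] [a]) ∧
      ∀ r ∈ rules, SimG L [] r.1 [] r.2 := by
  constructor
  · intro h
    simp only [EQ, List.mem_append, List.mem_flatMap] at h
    refine ⟨?_, ?_⟩
    · intro a
      cases a
      · exact SimG_of_ids (fun p hp => h p (Or.inr (Or.inl hp)))
      · exact SimG_of_ids (fun p hp => h p (Or.inl hp))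
    · intro r hr
      exact SimG_of_ids (fun p hp => h p (Or.inr (Or.inr ⟨r, hr, hp⟩)))
  · rintro ⟨h1, h2⟩ p hp
    simp only [EQ, List.mem_append, List.mem_flatMap] at hp
    rcases hp with hp | hp | ⟨r, hr, hp⟩
    · exact ids_of_SimG (h1 true) p hp
    · exact ids_of_SimG (h1 false) p hp
    · exact ids_of_SimG (h2 r hr) p hp

/-- equivalence of words in a Lie ring -/
def Sim (L : Type) [LieRing L] (u u' : List Bool) : Prop := SimG L [] u [] u'

section Sim

variable {L : Type} [LieRing L]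

lemma Sim.refl (u : List Bool) : Sim L u u := fun _ _ _ _ _ _ _ _ => rfl

lemma Sim.symm {u u' : List Bool} (h : Sim L u u') : Sim L u' u :=
  fun _ _ _ _ _ _ _ _ => (h _ _ _ _ _ _ _ _).symm

lemma Sim.trans {u u' u'' : List Bool} (h : Sim L u u') (h' : Sim L u' u'') : Sim L u u'' :=
  fun _ _ _ _ _ _ _ _ => (h _ _ _ _ _ _ _ _).trans (h' _ _ _ _ _ _ _ _)

lemma wd_append {X : Type} [Sig X] (H : List (Hn X)) (x1 x2 : X) (u v : List Bool)
    (f : List (Gn X)) : wd H x1 x2 (u ++ v) f = wd H x1 x2 u (wd H x1 x2 v f) := by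
  simp [wd, List.foldr_append]

lemma Sim.append_right {u u' : List Bool} (h : Sim L u u') (v : List Bool) :
    Sim L (u ++ v) (u' ++ v) := by
  intro y x1 x2 z e f0 f1 f2
  have := h y x1 x2 z e f0 f1 (wd (HH z e) x1 x2 v f2)
  simp only [Idv, wd_append] at this ⊢
  exact this

lemma Sim.cons (hm : ∀ a : Bool, SimG L [a] [] [] [a]) {u u' : List Bool} (h : Sim L u u')
    (a : Bool) : Sim L (a :: u) (a :: u') := by
  intro y x1 x2 z e f0 f1 f2
  have key : ∀ w : List Bool, Idv y x1 x2 z e [f0] [] (a :: w) f1 f2 =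
      Idv y x1 x2 z e [f0] [] w (lt (HH z e) x1 x2 a f1) f2 := by
    intro w
    exact (hm a y x1 x2 z e f0 f1 (wd (HH z e) x1 x2 w f2)).symm
  rw [key, key]
  exact h _ _ _ _ _ _ _ _

lemma Sim.append_left (hm : ∀ a : Bool, SimG L [a] [] [] [a]) {u u' : List Bool}
    (h : Sim L u u') (v : List Bool) : Sim L (v ++ u) (v ++ u') := by
  induction v with
  | nil => exact h
  | cons a v ih => exact ih.cons hm a

end Sim

end Run7.h11.Q
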